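import Mathlib

/-! Reflection (chessboard) estimates for traces of words in two Hermitian matrices. -/

namespace Pool.Agent.P.MP_ed7f76_gt

open Matrix Pointwise

variable {ι : Type*} [Fintype ι] [DecidableEq ι]

/-- real part of the trace -/
noncomputable def rt (W : Matrix ι ι ℂ) : ℝ := (Matrix.trace W).re

/-- squared Frobenius norm -/
noncomputable def fs (U : Matrix ι ι ℂ) : ℝ := ∑ i, ∑ j, ‖U i j‖ ^ 2

omit [DecidableEq ι] in
lemma rt_mul_comm (U V : Matrix ι ι ℂ) : rt (U * V) = rt (V * U) := by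
  unfold rt; rw [Matrix.trace_mul_comm]

omit [DecidableEq ι] in
lemma rt_conjT (U : Matrix ι ι ℂ) : rt Uᴴ = rt U := by
  unfold rt; rw [Matrix.trace_conjTranspose]; simp

omit [DecidableEq ι] in
lemma rt_add (U V : Matrix ι ι ℂ) : rt (U + V) = rt U + rt V := by
  unfold rt; rw [Matrix.trace_add]; simp

omit [DecidableEq ι] in
lemma rt_sub (U V : Matrix ι ι ℂ) : rt (U - V) = rt U - rt V := by
  unfold rt; rw [Matrix.trace_sub]; simp

omit [DecidableEq ι] in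
lemma fs_nonneg (U : Matrix ι ι ℂ) : 0 ≤ fs U := by
  unfold fs; positivity

omit [DecidableEq ι] in
lemma rt_star_mul (U : Matrix ι ι ℂ) : rt (Uᴴ * U) = fs U := by
  unfold rt fs
  simp only [Matrix.trace, Matrix.diag, Matrix.mul_apply, Matrix.conjTranspose_apply,
    Complex.re_sum]
  rw [Finset.sum_comm]
  refine Finset.sum_congr rfl fun i _ => Finset.sum_congr rfl fun j _ => ?_
  rw [Complex.star_def, Complex.conj_mul']
  norm_cast

omit [DecidableEq ι] in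
lemma polar (U V : Matrix ι ι ℂ) :
    rt (U * V) = (rt (Uᴴ * U) + rt (V * Vᴴ)) / 2 - fs (U - Vᴴ) / 2 := by
  rw [← rt_star_mul]
  have h1 : (U - Vᴴ)ᴴ * (U - Vᴴ) = Uᴴ * U - (V * U)ᴴ - V * U + V * Vᴴ := by
    simp only [Matrix.conjTranspose_sub, Matrix.conjTranspose_conjTranspose,
      Matrix.conjTranspose_mul, Matrix.sub_mul, Matrix.mul_sub]
    abel
  rw [h1, rt_add, rt_sub, rt_sub, rt_conjT, rt_mul_comm V U]
  ring

lemma star_mem_pow {S : Set (Matrix ι ι ℂ)} (hS : ∀ x ∈ S, xᴴ = x) :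
    ∀ (n : ℕ) (U : Matrix ι ι ℂ), U ∈ S ^ n → Uᴴ ∈ S ^ n := by
  intro n
  induction n with
  | zero => intro U hU; simp only [pow_zero, Set.mem_one] at hU ⊢; rw [hU]; simp
  | succ n ih =>
    intro U hU
    rw [pow_succ] at hU
    obtain ⟨a, ha, b, hb, rfl⟩ := hU
    rw [pow_succ']
    simp only [Matrix.conjTranspose_mul]
    exact Set.mul_mem_mul (by rw [hS b hb]; exact hb) (ih a ha)

lemma mul_mem_pow {S : Set (Matrix ι ι ℂ)} {m n : ℕ} {U V : Matrix ι ι ℂ}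
    (hU : U ∈ S ^ m) (hV : V ∈ S ^ n) : U * V ∈ S ^ (m + n) := by
  rw [pow_add]; exact Set.mul_mem_mul hU hV

lemma split_pow {S : Set (Matrix ι ι ℂ)} {m n : ℕ} {W : Matrix ι ι ℂ}
    (hW : W ∈ S ^ (m + n)) : ∃ U ∈ S ^ m, ∃ V ∈ S ^ n, W = U * V := by
  rw [pow_add] at hW
  obtain ⟨a, ha, b, hb, rfl⟩ := hW
  exact ⟨a, ha, b, hb, rfl⟩

lemma finite_pow {S : Set (Matrix ι ι ℂ)} (hS : S.Finite) : ∀ n : ℕ, (S ^ n).Finite := by
  intro n
  induction n with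
  | zero => simp
  | succ n ih => rw [pow_succ]; exact ih.mul hS

/-- reflection: the deficiency at most doubles -/
lemma reflect {S : Set (Matrix ι ι ℂ)} (hS : ∀ x ∈ S, xᴴ = x) {k : ℕ} {M : ℝ}
    (hM : ∀ W ∈ S ^ (k + k), rt W ≤ M) {U V : Matrix ι ι ℂ} (_hU : U ∈ S ^ k) (hV : V ∈ S ^ k) :
    M - rt (Uᴴ * U) ≤ 2 * (M - rt (U * V)) := by
  have h1 := polar U V
  have h2 := hM _ (mul_mem_pow hV (star_mem_pow hS k V hV))
  have h3 := fs_nonneg (U - Vᴴ)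
  linarith

/-- lengthening a run by one letter -/
lemma run_step {S : Set (Matrix ι ι ℂ)} (hS : ∀ x ∈ S, xᴴ = x) {M : ℝ} {r j s : ℕ}
    (hM : ∀ W ∈ S ^ ((r + 1 + j + (s + 1)) + (r + 1 + j + (s + 1))), rt W ≤ M)
    {x T R : Matrix ι ι ℂ} (hx : x ∈ S) (hT : T ∈ S ^ j)
    (hR : R ∈ S ^ ((s + 1) + (r + 1 + j + (s + 1)))) :
    ∃ R' ∈ S ^ (s + (r + 1 + 1 + j + s)),
      M - rt (x ^ (r + 1 + 1) * T * R') ≤ 2 * (M - rt (x ^ (r + 1) * T * R)) := by
  obtain ⟨R1, hR1, R2, hR2, rfl⟩ := split_pow hR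
  have hU : x ^ (r + 1) * T * R1 ∈ S ^ (r + 1 + j + (s + 1)) :=
    mul_mem_pow (mul_mem_pow (Set.pow_mem_pow hx) hT) hR1
  have h := reflect hS hM hU hR2
  refine ⟨R1 * R1ᴴ * Tᴴ * x ^ r, ?_, ?_⟩
  · have := mul_mem_pow (mul_mem_pow (mul_mem_pow hR1 (star_mem_pow hS _ _ hR1))
      (star_mem_pow hS _ _ hT)) (Set.pow_mem_pow (n := r) hx)
    convert this using 2
    omega
  · have e1 : x ^ (r + 1) * T * R1 * R2 = x ^ (r + 1) * T * (R1 * R2) := by
      simp only [Matrix.mul_assoc]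
    have e2 : rt ((x ^ (r + 1) * T * R1)ᴴ * (x ^ (r + 1) * T * R1))
        = rt (x ^ (r + 1 + 1) * T * (R1 * R1ᴴ * Tᴴ * x ^ r)) := by
      have : (x ^ (r + 1) * T * R1)ᴴ * (x ^ (r + 1) * T * R1)
          = (R1ᴴ * Tᴴ * x ^ r) * (x ^ (r + 1 + 1) * T * R1) := by
        simp only [Matrix.conjTranspose_mul, Matrix.conjTranspose_pow, hS x hx]
        rw [pow_succ' x (r + 1), pow_succ x r]
        simp only [Matrix.mul_assoc]
      rw [this, rt_mul_comm]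
      simp only [Matrix.mul_assoc]
    rw [e1, e2] at h
    exact h

/-- lengthening a run to the full half word -/
lemma run_all {S : Set (Matrix ι ι ℂ)} (hS : ∀ x ∈ S, xᴴ = x) {M : ℝ} {j : ℕ}
    {x T : Matrix ι ι ℂ} (hx : x ∈ S) (hT : T ∈ S ^ j) :
    ∀ (s r : ℕ) (R : Matrix ι ι ℂ),
      (∀ W ∈ S ^ ((r + 1 + j + s) + (r + 1 + j + s)), rt W ≤ M) →
      R ∈ S ^ (s + (r + 1 + j + s)) →
      M - rt ((x ^ (r + 1 + s) * T)ᴴ * (x ^ (r + 1 + s) * T))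
        ≤ 2 ^ (s + 1) * (M - rt (x ^ (r + 1) * T * R)) := by
  intro s
  induction s with
  | zero =>
    intro r R hM hR
    have hU : x ^ (r + 1) * T ∈ S ^ (r + 1 + j) := mul_mem_pow (Set.pow_mem_pow hx) hT
    have hR' : R ∈ S ^ (r + 1 + j) := by simpa using hR
    simpa using reflect hS hM hU hR'
  | succ s ih =>
    intro r R hM hR
    obtain ⟨R', hR', h⟩ := run_step hS hM hx hT hR
    have e : r + 1 + 1 + j + s = r + 1 + j + (s + 1) := by omega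
    have h2 := ih (r + 1) R' (by rw [e]; exact hM) hR'
    have e2 : r + 1 + 1 + s = r + 1 + (s + 1) := by omega
    rw [e2] at h2
    have h3 : (0 : ℝ) ≤ 2 ^ (s + 1) := by positivity
    calc _ ≤ _ := h2
      _ ≤ 2 ^ (s + 1) * (2 * (M - rt (x ^ (r + 1) * T * R))) := mul_le_mul_of_nonneg_left h h3
      _ = _ := by ring

/-- Hoelder-type bound for words. -/
lemma word_le {A B : Matrix ι ι ℂ} (hA : Aᴴ = A) (hB : Bᴴ = B) (s : ℕ)
    (hAB : rt (A ^ ((s + 1) + (s + 1))) = rt (B ^ ((s + 1) + (s + 1)))) :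
    ∀ W ∈ ({A, B} : Set (Matrix ι ι ℂ)) ^ ((s + 1) + (s + 1)),
      rt W ≤ rt (A ^ ((s + 1) + (s + 1))) := by
  set S : Set (Matrix ι ι ℂ) := {A, B} with hSdef
  have hS : ∀ x ∈ S, xᴴ = x := by
    rintro x (rfl | rfl) <;> assumption
  have hfin : (S ^ ((s + 1) + (s + 1))).Finite := finite_pow (Set.toFinite S) _
  have hne : (S ^ ((s + 1) + (s + 1))).Nonempty :=
    ⟨_, Set.pow_mem_pow (show A ∈ S from Or.inl rfl)⟩
  obtain ⟨W0, hW0, hmax⟩ := Set.exists_max_image _ rt hfin hne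
  have e : (s + 1) + (s + 1) = 1 + (s + (0 + 1 + 0 + s)) := by omega
  obtain ⟨x, hx, R, hR, hW⟩ := split_pow (e ▸ hW0)
  rw [pow_one] at hx
  have e' : (0 + 1 + 0 + s) + (0 + 1 + 0 + s) = (s + 1) + (s + 1) := by omega
  have h := run_all hS (M := rt W0) (j := 0) hx (T := 1) (by simp) s 0 R (by rw [e']; exact hmax) hR
  have h1 : x ^ (0 + 1) * 1 * R = W0 := by rw [hW]; simp
  rw [h1, sub_self, mul_zero] at h
  have h2 : (x ^ (0 + 1 + s) * 1)ᴴ * (x ^ (0 + 1 + s) * 1) = x ^ ((s + 1) + (s + 1)) := by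
    simp only [mul_one, Matrix.conjTranspose_pow, hS x hx, ← pow_add]
    congr 1
  rw [h2] at h
  intro W hW
  have h3 := hmax W hW
  rcases hx with rfl | rfl
  · linarith
  · linarith

/-- The key consequence: `(A^2 - B^2) A^m` is controlled by the deficiency of `(AB)^(m+2)`. -/
lemma key_fs {A B : Matrix ι ι ℂ} (hA : Aᴴ = A) (hB : Bᴴ = B) (m : ℕ)
    (hAB : rt (A ^ (2 * (m + 2))) = rt (B ^ (2 * (m + 2)))) :
    fs ((A ^ 2 - B ^ 2) * A ^ m) ≤
      2 ^ (m + 2) * (rt (A ^ (2 * (m + 2))) - rt ((A * B) ^ (m + 2))) := by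
  set S : Set (Matrix ι ι ℂ) := {A, B} with hSdef
  have hS : ∀ x ∈ S, xᴴ = x := by
    rintro x (rfl | rfl) <;> assumption
  have hAS : A ∈ S := Or.inl rfl
  have hBS : B ∈ S := Or.inr rfl
  have e0 : 2 * (m + 2) = (m + 1 + 1) + (m + 1 + 1) := by omega
  rw [e0] at hAB ⊢
  have hM := word_le hA hB (m + 1) hAB
  set M := rt (A ^ ((m + 1 + 1) + (m + 1 + 1))) with hMdef
  have hpow : ∀ n : ℕ, (A * B) ^ n ∈ S ^ (2 * n) := by
    intro n
    induction n with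
    | zero => simp
    | succ n ih =>
      rw [pow_succ]
      have h1 : A * B ∈ S ^ (1 + 1) := mul_mem_pow (by simpa using hAS) (by simpa using hBS)
      exact mul_mem_pow ih h1
  have e1 : (0 + 1 + 1 + m) + (0 + 1 + 1 + m) = (m + 1 + 1) + (m + 1 + 1) := by omega
  have e2 : m + (0 + 1 + 1 + m) = 2 * (m + 1) := by omega
  have h := run_all hS (M := M) (j := 1) hAS (T := B) (by simpa using hBS) m 0 ((A * B) ^ (m + 1))
    (by rw [e1]; exact hM) (by rw [e2]; exact hpow _)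
  have e3 : A ^ (0 + 1) * B * (A * B) ^ (m + 1) = (A * B) ^ (m + 2) := by
    rw [pow_succ' (A * B) (m + 1)]; simp
  have e4 : rt ((A ^ (0 + 1 + m) * B)ᴴ * (A ^ (0 + 1 + m) * B))
      = rt (A ^ (m + 2) * (A ^ m * B ^ 2)) := by
    simp only [Matrix.conjTranspose_mul, Matrix.conjTranspose_pow, hA, hB]
    rw [Matrix.mul_assoc, rt_mul_comm]
    congr 1
    rw [← Matrix.mul_assoc, ← pow_add, ← Matrix.mul_assoc, ← pow_add,
      Matrix.mul_assoc, ← pow_two]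
    congr 2; omega
  rw [e3, e4] at h
  have hU : A ^ (m + 2) ∈ S ^ (m + 1 + 1) := Set.pow_mem_pow hAS
  have hV : A ^ m * B ^ 2 ∈ S ^ (m + 1 + 1) :=
    mul_mem_pow (m := m) (n := 2) (Set.pow_mem_pow hAS) (Set.pow_mem_pow hBS)
  have hp := polar (A ^ (m + 2)) (A ^ m * B ^ 2)
  have h1 := hM _ (mul_mem_pow (star_mem_pow hS _ _ hU) hU)
  have h2 := hM _ (mul_mem_pow hV (star_mem_pow hS _ _ hV))
  have e5 : A ^ (m + 2) - (A ^ m * B ^ 2)ᴴ = (A ^ 2 - B ^ 2) * A ^ m := by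
    simp only [Matrix.conjTranspose_mul, Matrix.conjTranspose_pow, hA, hB, Matrix.sub_mul]
    rw [← pow_add, add_comm]
  rw [e5] at hp
  have e6 : (2 : ℝ) ^ (m + 2) = 2 * 2 ^ (m + 1) := by ring
  rw [e6]
  linarith

end Pool.Agent.P.MP_ed7f76_gt
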