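import Mathlib

namespace Pool.Agent.P.MP_ed7f76_gt

/-- The `n`-th Fourier coefficient of a `2π`-periodic real function. -/
noncomputable def fc (a : ℝ → ℝ) (n : ℤ) : ℂ :=
  (1 / (2 * Real.pi) : ℂ) *
    ∫ θ in (0 : ℝ)..(2 * Real.pi), (a θ : ℂ) * Complex.exp (-((n : ℂ) * θ * Complex.I))

/-- `f(n) = n (n + j_1) (n + j_1 + j_2) ⋯ (n + j_1 + ⋯ + j_{N-1})`. -/
def fpoly {N : ℕ} (j : Fin N → ℤ) (n : ℤ) : ℤ :=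
  ∏ i : Fin N, (n + ∑ t ∈ Finset.Iio i, j t)

/-- `N_{j_1 ... j_N} = ∑_n (|f(n)| - f(n))`. -/
noncomputable def Ncoef {N : ℕ} (j : Fin N → ℤ) : ℤ :=
  ∑ᶠ n : ℤ, (|fpoly j n| - fpoly j n)

end Pool.Agent.P.MP_ed7f76_gt
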