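import Mathlib

/-! Elementary estimates: additive energy lower bound and a discrete bump function. -/

namespace Pool.Agent.P.MP_ed7f76_gt

open Finset

lemma grp {α : Type*} (X : Finset α) (κ : α → ℤ) (f : α → ℂ) (T : Finset ℤ)
    (hT : ∀ x ∈ X, κ x ∈ T) :
    ((∑ s ∈ T, ‖∑ x ∈ X with κ x = s, f x‖ ^ 2 : ℝ) : ℂ)
      = ∑ x ∈ X, ∑ y ∈ X, if κ x = κ y then f x * (starRingEnd ℂ) (f y) else 0 := by
  push_cast
  have h1 : ∀ s ∈ T, ((‖∑ x ∈ X with κ x = s, f x‖ : ℂ)) ^ 2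
      = ∑ x ∈ X, ∑ y ∈ X, if κ x = s then
          (if κ x = κ y then f x * (starRingEnd ℂ) (f y) else 0) else 0 := by
    intro s _
    rw [← Complex.mul_conj', map_sum, Finset.sum_mul_sum, Finset.sum_filter]
    refine Finset.sum_congr rfl fun x _ => ?_
    rw [Finset.sum_filter]
    split_ifs with h
    · refine Finset.sum_congr rfl fun y _ => ?_
      rw [h]
      simp only [eq_comm]
    · simp
  rw [Finset.sum_congr rfl h1, Finset.sum_comm]
  refine Finset.sum_congr rfl fun x hx => ?_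
  rw [Finset.sum_comm]
  refine Finset.sum_congr rfl fun y _ => ?_
  rw [Finset.sum_ite_eq, if_pos (hT x hx)]

lemma energy (R : Finset ℤ) (β : ℤ → ℂ) (T : Finset ℤ) (hT : ∀ x ∈ R, ∀ y ∈ R, x + y ∈ T) :
    (∑ l ∈ R, ‖β l‖ ^ 2) ^ 2 ≤
      ∑ s ∈ T, ‖∑ p ∈ R ×ˢ R with p.1 + p.2 = s, β p.1 * β p.2‖ ^ 2 := by
  classical
  set T' : Finset ℤ := insert 0 ((R ×ˢ R).image fun p => p.1 - p.2) with hT'
  have h1 := grp (R ×ˢ R) (fun p => p.1 + p.2) (fun p => β p.1 * β p.2) T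
    (fun p hp => hT _ (Finset.mem_product.mp hp).1 _ (Finset.mem_product.mp hp).2)
  have h2 := grp (R ×ˢ R) (fun p => p.1 - p.2) (fun p => β p.1 * (starRingEnd ℂ) (β p.2)) T'
    (fun p hp => Finset.mem_insert_of_mem (Finset.mem_image_of_mem _ hp))
  have h3 : (∑ x ∈ R ×ˢ R, ∑ y ∈ R ×ˢ R, if x.1 + x.2 = y.1 + y.2 then
        β x.1 * β x.2 * (starRingEnd ℂ) (β y.1 * β y.2) else 0)
      = ∑ x ∈ R ×ˢ R, ∑ y ∈ R ×ˢ R, if x.1 - x.2 = y.1 - y.2 then
        β x.1 * (starRingEnd ℂ) (β x.2) * (starRingEnd ℂ) (β y.1 * (starRingEnd ℂ) (β y.2))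
        else 0 := by
    simp only [Finset.sum_product]
    refine Finset.sum_congr rfl fun a _ => ?_
    -- left: q, l', q' ; right: l', q', q
    rw [Finset.sum_comm]
    refine Finset.sum_congr rfl fun l' _ => ?_
    rw [Finset.sum_comm]
    refine Finset.sum_congr rfl fun q' _ => Finset.sum_congr rfl fun q _ => ?_
    have : (a + q = l' + q') ↔ (a - l' = q' - q) := by omega
    simp only [this, map_mul, Complex.conj_conj]
    split_ifs
    · ring
    · rfl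
  rw [h3, ← h2] at h1
  have h4 := Complex.ofReal_injective h1
  rw [h4]
  have h5 : (∑ l ∈ R, ‖β l‖ ^ 2) ^ 2
      = ‖∑ p ∈ R ×ˢ R with p.1 - p.2 = 0, β p.1 * (starRingEnd ℂ) (β p.2)‖ ^ 2 := by
    have : (∑ p ∈ R ×ˢ R with p.1 - p.2 = 0, β p.1 * (starRingEnd ℂ) (β p.2))
        = ((∑ l ∈ R, ‖β l‖ ^ 2 : ℝ) : ℂ) := by
      rw [Finset.sum_filter, Finset.sum_product]
      push_cast
      refine Finset.sum_congr rfl fun l hl => ?_
      simp only [sub_eq_zero]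
      rw [Finset.sum_ite_eq, if_pos hl, Complex.mul_conj']
    rw [this, Complex.norm_real, Real.norm_eq_abs, sq_abs]
  rw [h5]
  exact Finset.single_le_sum
    (f := fun s => ‖∑ p ∈ R ×ˢ R with p.1 - p.2 = s, β p.1 * (starRingEnd ℂ) (β p.2)‖ ^ 2)
    (fun _ _ => by positivity) (Finset.mem_insert_self _ _)

/-- the quadratic `(l-h)(5h-l)` -/
noncomputable def tq (h l : ℤ) : ℝ := ((l : ℝ) - h) * (5 * h - l)

/-- the bump -/
noncomputable def bump (h l : ℤ) : ℝ := (max (tq h l) 0) ^ 2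

lemma bump_nonneg (h l : ℤ) : 0 ≤ bump h l := by unfold bump; positivity

lemma bump_zero {h l : ℤ} (hh : 1 ≤ h) (hl : l ≤ h ∨ 5 * h ≤ l) : bump h l = 0 := by
  have hh' : (1 : ℝ) ≤ h := by exact_mod_cast hh
  have : tq h l ≤ 0 := by
    unfold tq
    rcases hl with hl | hl
    · have hl' : (l : ℝ) ≤ h := by exact_mod_cast hl
      exact mul_nonpos_of_nonpos_of_nonneg (by linarith) (by linarith)
    · have hl' : (5 * h : ℝ) ≤ l := by exact_mod_cast hl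
      exact mul_nonpos_of_nonneg_of_nonpos (by linarith) (by linarith)
  unfold bump
  rw [max_eq_right this]; simp

lemma tq_le (h l : ℤ) : tq h l ≤ 4 * (h : ℝ) ^ 2 := by
  unfold tq; nlinarith [sq_nonneg ((l : ℝ) - 3 * h)]

lemma pos_le (h l : ℤ) : max (tq h l) 0 ≤ 4 * (h : ℝ) ^ 2 :=
  max_le (tq_le h l) (by positivity)

lemma bump_le (h l : ℤ) : bump h l ≤ 16 * (h : ℝ) ^ 4 := by
  unfold bump
  have h1 := pos_le h l
  have h2 : 0 ≤ max (tq h l) 0 := le_max_right _ _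
  nlinarith

lemma bump_ge {h l : ℤ} (hh : 1 ≤ h) (h1 : 2 * h ≤ l) (h2 : l < 4 * h) :
    (h : ℝ) ^ 4 ≤ bump h l := by
  have hh' : (1 : ℝ) ≤ h := by exact_mod_cast hh
  have h1' : (2 * h : ℝ) ≤ l := by exact_mod_cast h1
  have h2' : (l : ℝ) ≤ 4 * h := by exact_mod_cast h2.le
  have : (h : ℝ) ^ 2 ≤ tq h l := by
    unfold tq; nlinarith
  have h3 : (h : ℝ) ^ 2 ≤ max (tq h l) 0 := this.trans (le_max_left _ _)
  unfold bump
  have h4 : 0 ≤ (h : ℝ) ^ 2 := by positivity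
  nlinarith

lemma taylor_pos (x y : ℝ) :
    |(max x 0) ^ 2 - (max y 0) ^ 2 - 2 * max y 0 * (x - y)| ≤ (x - y) ^ 2 := by
  rw [abs_le]
  rcases le_total x 0 with hx | hx <;> rcases le_total y 0 with hy | hy <;>
    simp only [max_eq_left, max_eq_right, hx, hy] <;> constructor <;> nlinarith [sq_nonneg (x - y)]

lemma tq_diff {h l : ℤ} (hh : 1 ≤ h) (h1 : h ≤ l) (h2 : l ≤ 5 * h) :
    (tq h (l + 1) - tq h l) ^ 2 ≤ 25 * (h : ℝ) ^ 2 ∧ (tq h (l - 1) - tq h l) ^ 2 ≤ 25 * (h : ℝ) ^ 2 := by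
  have hh' : (1 : ℝ) ≤ h := by exact_mod_cast hh
  have h1' : (h : ℝ) ≤ l := by exact_mod_cast h1
  have h2' : (l : ℝ) ≤ 5 * h := by exact_mod_cast h2
  have e1 : tq h (l + 1) - tq h l = 6 * h - 2 * l - 1 := by unfold tq; push_cast; ring
  have e2 : tq h (l - 1) - tq h l = -(6 * h) + 2 * l - 1 := by unfold tq; push_cast; ring
  rw [e1, e2]
  constructor <;> nlinarith

lemma bump_d1 {h l : ℤ} (hh : 1 ≤ h) (h1 : h ≤ l) (h2 : l ≤ 5 * h) :
    |bump h (l + 1) - bump h l| ≤ 65 * (h : ℝ) ^ 3 ∧ |bump h (l - 1) - bump h l| ≤ 65 * (h : ℝ) ^ 3 := by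
  have hh' : (1 : ℝ) ≤ h := by exact_mod_cast hh
  obtain ⟨d1, d2⟩ := tq_diff hh h1 h2
  have hp := pos_le h l
  have hp0 : 0 ≤ max (tq h l) 0 := le_max_right _ _
  have key : ∀ x : ℝ, (x - tq h l) ^ 2 ≤ 25 * (h : ℝ) ^ 2 →
      |(max x 0) ^ 2 - (max (tq h l) 0) ^ 2| ≤ 65 * (h : ℝ) ^ 3 := by
    intro x hx
    have t := taylor_pos x (tq h l)
    have hx' : |x - tq h l| ≤ 5 * h := by
      apply abs_le_of_sq_le_sq' _ (by linarith) |> abs_le.mpr
      nlinarith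
    have h3 : |2 * max (tq h l) 0 * (x - tq h l)| ≤ 2 * (4 * (h : ℝ) ^ 2) * (5 * h) := by
      rw [abs_mul, abs_of_nonneg (by linarith : (0 : ℝ) ≤ 2 * max (tq h l) 0)]
      exact mul_le_mul (by linarith) hx' (abs_nonneg _) (by positivity)
    have h4 : (h : ℝ) ^ 2 ≤ (h : ℝ) ^ 3 := by nlinarith
    rw [abs_le] at t h3 ⊢
    constructor <;> nlinarith
  exact ⟨key _ d1, key _ d2⟩

lemma bump_d2 {h l : ℤ} (hh : 1 ≤ h) (h1 : h ≤ l) (h2 : l ≤ 5 * h) :
    |bump h (l + 1) - 2 * bump h l + bump h (l - 1)| ≤ 66 * (h : ℝ) ^ 2 := by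
  obtain ⟨d1, d2⟩ := tq_diff hh h1 h2
  have hp := pos_le h l
  have hp0 : 0 ≤ max (tq h l) 0 := le_max_right _ _
  have t1 := taylor_pos (tq h (l + 1)) (tq h l)
  have t2 := taylor_pos (tq h (l - 1)) (tq h l)
  have e : tq h (l + 1) - tq h l + (tq h (l - 1) - tq h l) = -2 := by unfold tq; push_cast; ring
  have e2 : 2 * max (tq h l) 0 * (tq h (l + 1) - tq h l) + 2 * max (tq h l) 0 * (tq h (l - 1) - tq h l)
      = -4 * max (tq h l) 0 := by rw [← mul_add, e]; ring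
  unfold bump
  rw [abs_le] at t1 t2 ⊢
  constructor <;> linarith

/-- second difference of the product weight along an antidiagonal -/
noncomputable def dw (h l q : ℤ) : ℝ :=
  bump h (l - 1) * bump h (q + 1) - 2 * (bump h l * bump h q) + bump h (l + 1) * bump h (q - 1)

lemma dw_zero {h l q : ℤ} (hh : 1 ≤ h) (hq : q < h ∨ 5 * h < q) : dw h l q = 0 := by
  unfold dw
  rw [bump_zero hh (l := q + 1) (by omega), bump_zero hh (l := q) (by omega),
    bump_zero hh (l := q - 1) (by omega)]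
  simp

lemma dw_le {h l q : ℤ} (hh : 1 ≤ h) (h1 : h ≤ l) (h2 : l ≤ 5 * h) (h3 : h ≤ q) (h4 : q ≤ 5 * h) :
    |dw h l q| ≤ 11000 * (h : ℝ) ^ 6 := by
  obtain ⟨a1, a2⟩ := bump_d1 hh h1 h2
  obtain ⟨b1, b2⟩ := bump_d1 hh h3 h4
  have a3 := bump_d2 hh h1 h2
  have b3 := bump_d2 hh h3 h4
  have a0 : |bump h l| ≤ 16 * (h : ℝ) ^ 4 := by
    rw [abs_of_nonneg (bump_nonneg _ _)]; exact bump_le _ _
  have b0 : |bump h q| ≤ 16 * (h : ℝ) ^ 4 := by
    rw [abs_of_nonneg (bump_nonneg _ _)]; exact bump_le _ _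
  have e : dw h l q = bump h l * (bump h (q + 1) - 2 * bump h q + bump h (q - 1))
      + bump h q * (bump h (l + 1) - 2 * bump h l + bump h (l - 1))
      + (bump h (l - 1) - bump h l) * (bump h (q + 1) - bump h q)
      + (bump h (l + 1) - bump h l) * (bump h (q - 1) - bump h q) := by
    unfold dw; ring
  have hh' : (0 : ℝ) ≤ h := by have : (1 : ℝ) ≤ h := by exact_mod_cast hh
                               linarith
  have m1 := mul_le_mul a0 b3 (abs_nonneg _) (by positivity)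
  have m2 := mul_le_mul b0 a3 (abs_nonneg _) (by positivity)
  have m3 := mul_le_mul a2 b1 (abs_nonneg _) (by positivity)
  have m4 := mul_le_mul a1 b2 (abs_nonneg _) (by positivity)
  rw [← abs_mul] at m1 m2 m3 m4
  rw [e]
  have h6 : (0 : ℝ) ≤ (h : ℝ) ^ 6 := by positivity
  rw [abs_le] at m1 m2 m3 m4 ⊢
  constructor <;> nlinarith

end Pool.Agent.P.MP_ed7f76_gt
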