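import Pool.Agent.P.MP_ed7f76_gt.Energy

/-! The window estimate and the summation over scales. -/

namespace Pool.Agent.P.MP_ed7f76_gt

open Finset

lemma sum_shift (w K : ℤ → ℂ) (a b : ℤ) (hw : ∀ l, l ≤ a ∨ b ≤ l → w l = 0) (e : ℤ)
    (he : e = 1 ∨ e = -1) :
    ∑ l ∈ Icc a b, w l * K (l + e) = ∑ l ∈ Icc a b, w (l - e) * K l := by
  rw [← tsum_eq_sum (L := SummationFilter.unconditional ℤ) (s := Icc a b) (f := fun l => w l * K (l + e)),
    ← tsum_eq_sum (L := SummationFilter.unconditional ℤ) (s := Icc a b) (f := fun l => w (l - e) * K l)]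
  · rw [← (Equiv.addRight e).tsum_eq (fun l => w (l - e) * K l)]
    simp
  · intro l hl
    rw [hw _ (by simp only [mem_Icc] at hl; omega), zero_mul]
  · intro l hl
    rw [hw _ (by simp only [mem_Icc] at hl; omega), zero_mul]

lemma conv_eq (β : ℤ → ℂ) (R : Finset ℤ) (hβ : ∀ l, l ∉ R → β l = 0) (s : ℤ) :
    ∑ p ∈ R ×ˢ R with p.1 + p.2 = s, β p.1 * β p.2 = ∑ l ∈ R, β l * β (s - l) := by
  rw [Finset.sum_filter, Finset.sum_product]
  refine Finset.sum_congr rfl fun l _ => ?_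
  have : ∀ q : ℤ, (l + q = s) ↔ (s - l = q) := by intro q; omega
  simp only [this]
  rw [Finset.sum_ite_eq]
  split_ifs with h
  · rfl
  · rw [hβ _ h, mul_zero]

lemma by_parts {b : ℤ → ℂ} {G : ℤ → ℤ → ℂ}
    (hG : ∀ l q, G (l + 1) (q - 1) - 2 * G l q + G (l - 1) (q + 1) = 2 * (b l * b q))
    {h : ℤ} (hh : 1 ≤ h) (s : ℤ) :
    2 * ∑ l ∈ Icc h (5 * h), ((bump h l : ℂ) * b l) * ((bump h (s - l) : ℂ) * b (s - l))
      = ∑ l ∈ Icc h (5 * h), (dw h l (s - l) : ℂ) * G l (s - l) := by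
  set w : ℤ → ℂ := fun l => (bump h l : ℂ) * (bump h (s - l) : ℂ) with hw
  have hw0 : ∀ l, l ≤ h ∨ 5 * h ≤ l → w l = 0 := by
    intro l hl; simp only [hw, bump_zero hh hl]; simp
  have h1 := sum_shift w (fun l => G l (s - l)) h (5 * h) hw0 1 (Or.inl rfl)
  have h2 := sum_shift w (fun l => G l (s - l)) h (5 * h) hw0 (-1) (Or.inr rfl)
  have h3 : 2 * ∑ l ∈ Icc h (5 * h), ((bump h l : ℂ) * b l) * ((bump h (s - l) : ℂ) * b (s - l))
      = ∑ l ∈ Icc h (5 * h), w l * G (l + 1) (s - (l + 1))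
        - 2 * ∑ l ∈ Icc h (5 * h), w l * G l (s - l)
        + ∑ l ∈ Icc h (5 * h), w l * G (l + -1) (s - (l + -1)) := by
    rw [Finset.mul_sum, Finset.mul_sum, ← Finset.sum_sub_distrib, ← Finset.sum_add_distrib]
    refine Finset.sum_congr rfl fun l _ => ?_
    have := hG l (s - l)
    have e1 : s - (l + 1) = s - l - 1 := by ring
    have e2 : s - (l + -1) = s - l + 1 := by ring
    have e3 : l + -1 = l - 1 := by ring
    rw [e1, e2, e3]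
    simp only [hw]
    linear_combination (-(bump h l : ℂ) * (bump h (s - l) : ℂ)) * this
  rw [h3, h1, h2, Finset.mul_sum, ← Finset.sum_sub_distrib, ← Finset.sum_add_distrib]
  refine Finset.sum_congr rfl fun l _ => ?_
  have e1 : s - (l - 1) = s - l + 1 := by ring
  have e2 : s - (l - -1) = s - l - 1 := by ring
  have e3 : l - -1 = l + 1 := by ring
  simp only [hw, dw, e1, e2]
  simp only [e3]
  push_cast
  ring

lemma window {b : ℤ → ℂ} {G : ℤ → ℤ → ℂ}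
    (hG : ∀ l q, G (l + 1) (q - 1) - 2 * G l q + G (l - 1) (q + 1) = 2 * (b l * b q))
    {h : ℤ} (hh : 1 ≤ h) :
    (h : ℝ) ^ 5 * (∑ n ∈ Ico (2 * h) (4 * h), ‖b n‖ ^ 2) ^ 2 ≤
      200000000 * ∑ q ∈ Icc h (5 * h), ∑ l ∈ Icc h (5 * h), (l : ℝ) * q * ‖G l q‖ ^ 2 := by
  have hh' : (1 : ℝ) ≤ h := by exact_mod_cast hh
  have hpos : (0 : ℝ) < h := by linarith
  set R := Icc h (5 * h) with hR
  set β : ℤ → ℂ := fun l => (bump h l : ℂ) * b l with hβ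
  have hβ0 : ∀ l, l ∉ R → β l = 0 := by
    intro l hl
    simp only [hβ, bump_zero hh (l := l) (by simp only [hR, mem_Icc] at hl; omega)]; simp
  have hE := energy R β (Icc (2 * h) (10 * h)) (by
    intro x hx y hy; simp only [hR, mem_Icc] at hx hy ⊢; omega)
  simp only [conv_eq β R hβ0] at hE
  set F : ℝ := ∑ l ∈ R, ∑ q ∈ R, ‖G l q‖ ^ 2 with hF
  have hcard : (R.card : ℝ) ≤ 5 * h := by
    have : (R.card : ℤ) = 5 * h + 1 - h := by
      rw [hR, Int.card_Icc, Int.toNat_of_nonneg (by omega)]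
    have h2 : (R.card : ℤ) ≤ 5 * h := by omega
    exact_mod_cast h2
  have hc : ∀ s, 4 * ‖∑ l ∈ R, β l * β (s - l)‖ ^ 2 ≤
      5 * h * (11000 * (h : ℝ) ^ 6) ^ 2 * ∑ l ∈ R, if s - l ∈ R then ‖G l (s - l)‖ ^ 2 else 0 := by
    intro s
    have h1 := by_parts hG hh s
    have h2 : 4 * ‖∑ l ∈ R, β l * β (s - l)‖ ^ 2
        = ‖∑ l ∈ R, (dw h l (s - l) : ℂ) * G l (s - l)‖ ^ 2 := by
      rw [← h1, norm_mul]; simp only [Complex.norm_ofNat]; ring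
    rw [h2]
    have h3 : ‖∑ l ∈ R, (dw h l (s - l) : ℂ) * G l (s - l)‖
        ≤ ∑ l ∈ R, ‖(dw h l (s - l) : ℂ) * G l (s - l)‖ := norm_sum_le _ _
    have h4 : (∑ l ∈ R, ‖(dw h l (s - l) : ℂ) * G l (s - l)‖) ^ 2
        ≤ R.card * ∑ l ∈ R, ‖(dw h l (s - l) : ℂ) * G l (s - l)‖ ^ 2 := sq_sum_le_card_mul_sum_sq
    have h5 : ∑ l ∈ R, ‖(dw h l (s - l) : ℂ) * G l (s - l)‖ ^ 2
        ≤ (11000 * (h : ℝ) ^ 6) ^ 2 * ∑ l ∈ R, if s - l ∈ R then ‖G l (s - l)‖ ^ 2 else 0 := by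
      rw [Finset.mul_sum]
      refine Finset.sum_le_sum fun l hl => ?_
      split_ifs with hq
      · rw [norm_mul, mul_pow, Complex.norm_real, Real.norm_eq_abs]
        simp only [hR, mem_Icc] at hl hq
        have := dw_le hh hl.1 hl.2 hq.1 hq.2
        exact mul_le_mul_of_nonneg_right (pow_le_pow_left₀ (abs_nonneg _) this 2) (by positivity)
      · rw [dw_zero hh (by simp only [hR, mem_Icc] at hq; omega)]; simp
    calc _ ≤ (∑ l ∈ R, ‖(dw h l (s - l) : ℂ) * G l (s - l)‖) ^ 2 :=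
          pow_le_pow_left₀ (norm_nonneg _) h3 2
      _ ≤ _ := h4
      _ ≤ (5 * h) * ((11000 * (h : ℝ) ^ 6) ^ 2 *
            ∑ l ∈ R, if s - l ∈ R then ‖G l (s - l)‖ ^ 2 else 0) :=
          mul_le_mul hcard h5 (by positivity) (by positivity)
      _ = _ := by ring
  have hsum : ∑ s ∈ Icc (2 * h) (10 * h), (∑ l ∈ R, if s - l ∈ R then ‖G l (s - l)‖ ^ 2 else 0)
      ≤ F := by
    rw [Finset.sum_comm]
    refine Finset.sum_le_sum fun l _ => ?_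
    rw [← Finset.sum_filter]
    rw [← Finset.sum_image (g := fun s => s - l) (f := fun q => ‖G l q‖ ^ 2)
      (by intro x _ y _ hxy; simpa using hxy)]
    refine Finset.sum_le_sum_of_subset_of_nonneg ?_ (fun _ _ _ => by positivity)
    intro q hq
    obtain ⟨s, hs, rfl⟩ := Finset.mem_image.mp hq
    exact (Finset.mem_filter.mp hs).2
  have h6 : 4 * (∑ l ∈ R, ‖β l‖ ^ 2) ^ 2 ≤ 5 * h * (11000 * (h : ℝ) ^ 6) ^ 2 * F := by
    calc _ ≤ 4 * ∑ s ∈ Icc (2 * h) (10 * h), ‖∑ l ∈ R, β l * β (s - l)‖ ^ 2 := by linarith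
      _ ≤ ∑ s ∈ Icc (2 * h) (10 * h), (5 * h * (11000 * (h : ℝ) ^ 6) ^ 2 *
            ∑ l ∈ R, if s - l ∈ R then ‖G l (s - l)‖ ^ 2 else 0) := by
          rw [Finset.mul_sum]; exact Finset.sum_le_sum fun s _ => hc s
      _ ≤ _ := by
          rw [← Finset.mul_sum]; exact mul_le_mul_of_nonneg_left hsum (by positivity)
  have h7 : (h : ℝ) ^ 8 * ∑ n ∈ Ico (2 * h) (4 * h), ‖b n‖ ^ 2 ≤ ∑ l ∈ R, ‖β l‖ ^ 2 := by
    rw [Finset.mul_sum]
    refine le_trans (Finset.sum_le_sum fun n hn => ?_)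
      (Finset.sum_le_sum_of_subset_of_nonneg (s := Ico (2 * h) (4 * h)) ?_ (fun _ _ _ => by positivity))
    · simp only [hβ, norm_mul, mul_pow, Complex.norm_real, Real.norm_eq_abs, sq_abs]
      simp only [mem_Ico] at hn
      have := bump_ge hh hn.1 hn.2
      have h8 : (h : ℝ) ^ 8 ≤ bump h n ^ 2 := by
        calc (h : ℝ) ^ 8 = ((h : ℝ) ^ 4) ^ 2 := by ring
          _ ≤ _ := pow_le_pow_left₀ (by positivity) this 2
      exact mul_le_mul_of_nonneg_right h8 (by positivity)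
    · intro n hn; simp only [hR, mem_Ico, mem_Icc] at hn ⊢; omega
  have h8 : (h : ℝ) ^ 2 * F ≤ ∑ q ∈ R, ∑ l ∈ R, (l : ℝ) * q * ‖G l q‖ ^ 2 := by
    rw [Finset.sum_comm, hF, Finset.mul_sum]
    refine Finset.sum_le_sum fun l hl => ?_
    rw [Finset.mul_sum]
    refine Finset.sum_le_sum fun q hq => ?_
    simp only [hR, mem_Icc] at hl hq
    have a1 : (h : ℝ) ≤ l := by exact_mod_cast hl.1
    have a2 : (h : ℝ) ≤ q := by exact_mod_cast hq.1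
    have a3 : (h : ℝ) ^ 2 ≤ (l : ℝ) * q := by
      rw [pow_two]; exact mul_le_mul a1 a2 hpos.le (hpos.le.trans a1)
    exact mul_le_mul_of_nonneg_right a3 (sq_nonneg _)
  have hS0 : 0 ≤ ∑ n ∈ Ico (2 * h) (4 * h), ‖b n‖ ^ 2 := Finset.sum_nonneg fun _ _ => sq_nonneg _
  have hF0 : 0 ≤ F := Finset.sum_nonneg fun _ _ => Finset.sum_nonneg fun _ _ => sq_nonneg _
  generalize ∑ n ∈ Ico (2 * h) (4 * h), ‖b n‖ ^ 2 = S at hS0 h7 ⊢
  generalize ∑ l ∈ R, ‖β l‖ ^ 2 = B at h6 h7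
  generalize ∑ q ∈ R, ∑ l ∈ R, (l : ℝ) * q * ‖G l q‖ ^ 2 = T at h8 ⊢
  clear_value F
  clear hsum hc hE hF hβ0 hβ hcard hG
  have h9 : ((h : ℝ) ^ 8 * S) ^ 2 ≤ B ^ 2 :=
    pow_le_pow_left₀ (by positivity) h7 2
  have h10 : (h : ℝ) ^ 11 * ((h : ℝ) ^ 5 * S ^ 2) ≤ (h : ℝ) ^ 11 * (200000000 * ((h : ℝ) ^ 2 * F)) := by
    have : 0 ≤ (h : ℝ) ^ 13 * F := by positivity
    nlinarith
  have h11 := le_of_mul_le_mul_left h10 (by positivity)
  linarith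

lemma sum_pow_le {ι : Type*} (s : Finset ι) (x : ι → ℝ) (hx : ∀ i ∈ s, 0 ≤ x i) (k : ℕ) :
    ∑ i ∈ s, x i ^ (k + 1) ≤ (∑ i ∈ s, x i) ^ (k + 1) := by
  rw [pow_succ', Finset.sum_mul]
  refine Finset.sum_le_sum fun i hi => ?_
  rw [pow_succ']
  exact mul_le_mul_of_nonneg_left
    (pow_le_pow_left₀ (hx i hi) (Finset.single_le_sum hx hi) k) (hx i hi)

lemma window_pow {b : ℤ → ℂ} {G : ℤ → ℤ → ℂ}
    (hG : ∀ l q, G (l + 1) (q - 1) - 2 * G l q + G (l - 1) (q + 1) = 2 * (b l * b q))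
    (m : ℕ) {h L : ℤ} (hh : 1 ≤ h) (hL : h ≤ L) :
    (h : ℝ) ^ (2 * (m + 2)) * ∑ n ∈ Ico (2 * h) (4 * h), ‖b n‖ ^ (2 * (m + 2)) ≤
      (1000000000 : ℝ) ^ (((m + 2 : ℕ) : ℝ) / 2) * ((h : ℝ)⁻¹ * ∑ q ∈ Icc h (5 * h),
        (∑ l ∈ Icc 1 (5 * L), (l : ℝ) * q * ‖G l q‖ ^ 2) ^ (((m + 2 : ℕ) : ℝ) / 2)) := by
  have hh' : (1 : ℝ) ≤ h := by exact_mod_cast hh
  have hpos : (0 : ℝ) < h := by linarith
  set p : ℝ := ((m + 2 : ℕ) : ℝ) / 2 with hp
  have hp1 : 1 ≤ p := by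
    rw [hp]; push_cast; have : (0 : ℝ) ≤ m := by positivity
    linarith
  set col : ℤ → ℝ := fun q => ∑ l ∈ Icc 1 (5 * L), (l : ℝ) * q * ‖G l q‖ ^ 2 with hcol
  have hcol0 : ∀ q ∈ Icc h (5 * h), 0 ≤ col q := by
    intro q hq
    refine Finset.sum_nonneg fun l hl => ?_
    simp only [mem_Icc] at hl hq
    have a1 : (0 : ℝ) ≤ l := by exact_mod_cast (by omega : (0 : ℤ) ≤ l)
    have a2 : (0 : ℝ) ≤ q := by exact_mod_cast (by omega : (0 : ℤ) ≤ q)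
    positivity
  set S := ∑ n ∈ Ico (2 * h) (4 * h), ‖b n‖ ^ 2 with hS
  have hS0 : 0 ≤ S := by positivity
  have h1 : (h : ℝ) ^ 5 * S ^ 2 ≤ 200000000 * ∑ q ∈ Icc h (5 * h), col q := by
    refine (window hG hh).trans (mul_le_mul_of_nonneg_left (Finset.sum_le_sum fun q hq => ?_)
      (by norm_num))
    refine Finset.sum_le_sum_of_subset_of_nonneg ?_ fun l hl _ => ?_
    · intro l hl; simp only [mem_Icc] at hl ⊢; omega
    · simp only [mem_Icc] at hl hq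
      have a1 : (0 : ℝ) ≤ l := by exact_mod_cast (by omega : (0 : ℤ) ≤ l)
      have a2 : (0 : ℝ) ≤ q := by exact_mod_cast (by omega : (0 : ℤ) ≤ q)
      positivity
  have hcard : ((Icc h (5 * h)).card : ℝ) ≤ 5 * h := by
    have : ((Icc h (5 * h)).card : ℤ) = 5 * h + 1 - h := by
      rw [Int.card_Icc, Int.toNat_of_nonneg (by omega)]
    have h2 : ((Icc h (5 * h)).card : ℤ) ≤ 5 * h := by omega
    exact_mod_cast h2
  have h2 := Real.rpow_sum_le_const_mul_sum_rpow_of_nonneg (Icc h (5 * h)) hp1 hcol0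
  have h3 := Real.rpow_le_rpow (by positivity) h1 (by linarith : 0 ≤ p)
  have hsum0 : 0 ≤ ∑ q ∈ Icc h (5 * h), col q := Finset.sum_nonneg hcol0
  have hT0 : 0 ≤ ∑ q ∈ Icc h (5 * h), col q ^ p :=
    Finset.sum_nonneg fun q hq => Real.rpow_nonneg (hcol0 q hq) _
  set T := ∑ q ∈ Icc h (5 * h), col q ^ p with hT
  rw [Real.mul_rpow (by norm_num) hsum0] at h3
  have h4 : ((Icc h (5 * h)).card : ℝ) ^ (p - 1) ≤ 5 ^ p * ((h : ℝ) ^ p * (h : ℝ)⁻¹) := by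
    calc _ ≤ (5 * (h : ℝ)) ^ (p - 1) := Real.rpow_le_rpow (by positivity) hcard (by linarith)
      _ = 5 ^ (p - 1) * (h : ℝ) ^ (p - 1) := Real.mul_rpow (by norm_num) hpos.le
      _ ≤ 5 ^ p * (h : ℝ) ^ (p - 1) := mul_le_mul_of_nonneg_right
          (Real.rpow_le_rpow_of_exponent_le (by norm_num) (by linarith)) (by positivity)
      _ = _ := by rw [Real.rpow_sub_one hpos.ne', div_eq_mul_inv]
  have h5 : ((h : ℝ) ^ 5 * S ^ 2) ^ p = (h : ℝ) ^ p * ((h : ℝ) ^ (2 * (m + 2)) * S ^ (m + 2)) := by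
    have e1 : (h : ℝ) ^ 5 * S ^ 2 = h * ((h : ℝ) ^ 2 * S) ^ 2 := by ring
    rw [e1, Real.mul_rpow hpos.le (by positivity)]
    congr 1
    rw [← Real.rpow_natCast _ 2, ← Real.rpow_mul (by positivity)]
    have e2 : ((2 : ℕ) : ℝ) * p = ((m + 2 : ℕ) : ℝ) := by rw [hp]; push_cast; ring
    rw [e2, Real.rpow_natCast, mul_pow, ← pow_mul]
  have h6 : ∑ n ∈ Ico (2 * h) (4 * h), ‖b n‖ ^ (2 * (m + 2)) ≤ S ^ (m + 2) := by
    simp only [pow_mul]
    exact sum_pow_le _ (fun n => ‖b n‖ ^ 2) (fun _ _ => by positivity) (m + 1)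
  have h7 : (1000000000 : ℝ) ^ p = 200000000 ^ p * 5 ^ p := by
    rw [← Real.mul_rpow (by norm_num) (by norm_num)]; norm_num
  have hhp : (0 : ℝ) < (h : ℝ) ^ p := Real.rpow_pos_of_pos hpos _
  have h8 : (h : ℝ) ^ p * ((h : ℝ) ^ (2 * (m + 2)) * S ^ (m + 2))
      ≤ (h : ℝ) ^ p * ((1000000000 : ℝ) ^ p * ((h : ℝ)⁻¹ * T)) := by
    rw [← h5, h7]
    calc _ ≤ _ := h3
      _ ≤ 200000000 ^ p * ((5 ^ p * ((h : ℝ) ^ p * (h : ℝ)⁻¹)) * T) :=
          mul_le_mul_of_nonneg_left (h2.trans (mul_le_mul_of_nonneg_right h4 hT0)) (by positivity)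
      _ = _ := by ring
  have h9 := le_of_mul_le_mul_left h8 hhp
  exact (mul_le_mul_of_nonneg_left h6 (by positivity)).trans h9

theorem scales {b : ℤ → ℂ} {G : ℤ → ℤ → ℂ}
    (hG : ∀ l q, G (l + 1) (q - 1) - 2 * G l q + G (l - 1) (q + 1) = 2 * (b l * b q))
    (m : ℕ) (L : ℤ) :
    ∑ n ∈ Icc 2 L, (n : ℝ) ^ (2 * (m + 2) + 1) * ‖b n‖ ^ (2 * (m + 2)) ≤
      (40 * 4 ^ (2 * (m + 2)) * (1000000000 : ℝ) ^ (((m + 2 : ℕ) : ℝ) / 2)) *
      ∑ q ∈ Icc 1 (5 * L),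
        (∑ l ∈ Icc 1 (5 * L), (l : ℝ) * q * ‖G l q‖ ^ 2) ^ (((m + 2 : ℕ) : ℝ) / 2) := by
  set p : ℝ := ((m + 2 : ℕ) : ℝ) / 2 with hp
  set k2 := 2 * (m + 2) with hk2
  set col : ℤ → ℝ := fun q => (∑ l ∈ Icc 1 (5 * L), (l : ℝ) * q * ‖G l q‖ ^ 2) ^ p with hcol
  have hcol0 : ∀ q ∈ Icc 1 (5 * L), 0 ≤ col q := by
    intro q hq
    refine Real.rpow_nonneg (Finset.sum_nonneg fun l hl => ?_) _
    simp only [mem_Icc] at hl hq
    have a1 : (0 : ℝ) ≤ l := by exact_mod_cast (by omega : (0 : ℤ) ≤ l)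
    have a2 : (0 : ℝ) ≤ q := by exact_mod_cast (by omega : (0 : ℤ) ≤ q)
    positivity
  have hD : (0 : ℝ) ≤ (1000000000 : ℝ) ^ p := by positivity
  have h1 : ∑ h ∈ Icc 1 L, (h : ℝ) ^ k2 * ∑ n ∈ Ico (2 * h) (4 * h), ‖b n‖ ^ k2
      ≤ (1000000000 : ℝ) ^ p * ∑ h ∈ Icc 1 L, ((h : ℝ)⁻¹ * ∑ q ∈ Icc h (5 * h), col q) := by
    rw [Finset.mul_sum]
    refine Finset.sum_le_sum fun h hh => ?_
    simp only [mem_Icc] at hh
    exact window_pow hG m hh.1 hh.2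
  have h2 : ∑ h ∈ Icc 1 L, ((h : ℝ)⁻¹ * ∑ q ∈ Icc h (5 * h), col q)
      ≤ 5 * ∑ q ∈ Icc 1 (5 * L), col q := by
    have e : ∀ h ∈ Icc 1 L, (h : ℝ)⁻¹ * ∑ q ∈ Icc h (5 * h), col q
        = ∑ q ∈ Icc 1 (5 * L), (if h ≤ q ∧ q ≤ 5 * h then (h : ℝ)⁻¹ else 0) * col q := by
      intro h hh
      simp only [ite_mul, zero_mul]
      rw [← Finset.sum_filter, Finset.mul_sum]
      refine Finset.sum_congr ?_ fun _ _ => rfl
      ext q; simp only [mem_Icc, mem_filter] at hh ⊢; omega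
    rw [Finset.sum_congr rfl e, Finset.sum_comm, Finset.mul_sum]
    refine Finset.sum_le_sum fun q hq => ?_
    rw [← Finset.sum_mul]
    refine mul_le_mul_of_nonneg_right ?_ (hcol0 q hq)
    simp only [mem_Icc] at hq
    have hq0 : (0 : ℝ) < q := by exact_mod_cast (by omega : (0 : ℤ) < q)
    rw [← Finset.sum_filter]
    have hsub : (Icc 1 L).filter (fun h => h ≤ q ∧ q ≤ 5 * h) ⊆ Icc 1 q := by
      intro h hh; simp only [mem_Icc, mem_filter] at hh ⊢; omega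
    have hc : (((Icc 1 L).filter (fun h => h ≤ q ∧ q ≤ 5 * h)).card : ℝ) ≤ q := by
      have a1 := Finset.card_le_card hsub
      have a2 : ((Icc 1 q).card : ℤ) = q + 1 - 1 := by
        rw [Int.card_Icc, Int.toNat_of_nonneg (by omega)]
      have a3 : (((Icc 1 L).filter (fun h => h ≤ q ∧ q ≤ 5 * h)).card : ℤ) ≤ q := by omega
      exact_mod_cast a3
    have hb : ∀ h ∈ (Icc 1 L).filter (fun h => h ≤ q ∧ q ≤ 5 * h), (h : ℝ)⁻¹ ≤ 5 / q := by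
      intro h hh
      simp only [mem_Icc, mem_filter] at hh
      have a1 : (0 : ℝ) < h := by exact_mod_cast (by omega : (0 : ℤ) < h)
      have a2 : (q : ℝ) ≤ 5 * h := by exact_mod_cast hh.2.2
      rw [inv_eq_one_div, div_le_div_iff₀ a1 hq0]; linarith
    have := Finset.sum_le_card_nsmul _ _ _ hb
    rw [nsmul_eq_mul] at this
    calc _ ≤ _ := this
      _ ≤ q * (5 / q) := mul_le_mul_of_nonneg_right hc (by positivity)
      _ = 5 := by field_simp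
  have h3 : ∑ n ∈ Icc 2 L, (n : ℝ) ^ (k2 + 1) * ‖b n‖ ^ k2
      ≤ 8 * 4 ^ k2 * ∑ h ∈ Icc 1 L, (h : ℝ) ^ k2 * ∑ n ∈ Ico (2 * h) (4 * h), ‖b n‖ ^ k2 := by
    have e : ∀ h ∈ Icc 1 L,
        ∑ n ∈ Icc 2 L, (if 2 * h ≤ n ∧ n < 4 * h then (h : ℝ) ^ k2 else 0) * ‖b n‖ ^ k2
        ≤ (h : ℝ) ^ k2 * ∑ n ∈ Ico (2 * h) (4 * h), ‖b n‖ ^ k2 := by
      intro h hh
      simp only [ite_mul, zero_mul]
      rw [← Finset.sum_filter, Finset.mul_sum]
      simp only [mem_Icc] at hh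
      have a1 : (0 : ℝ) < h := by exact_mod_cast (by omega : (0 : ℤ) < h)
      refine Finset.sum_le_sum_of_subset_of_nonneg ?_ fun _ _ _ => by positivity
      intro n hn; simp only [mem_Icc, mem_filter, mem_Ico] at hn ⊢; omega
    refine le_trans ?_ (mul_le_mul_of_nonneg_left (Finset.sum_le_sum e) (by positivity))
    rw [Finset.sum_comm, Finset.mul_sum]
    refine Finset.sum_le_sum fun n hn => ?_
    rw [← Finset.sum_mul, ← mul_assoc]
    refine mul_le_mul_of_nonneg_right ?_ (by positivity)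
    simp only [mem_Icc] at hn
    have hn0 : (0 : ℝ) < n := by exact_mod_cast (by omega : (0 : ℤ) < n)
    rw [← Finset.sum_filter]
    have hsub : Ioc (n / 4) (n / 2) ⊆ (Icc 1 L).filter (fun h => 2 * h ≤ n ∧ n < 4 * h) := by
      intro h hh; simp only [mem_Icc, mem_filter, mem_Ioc] at hh ⊢; omega
    have hc : (n : ℝ) ≤ 8 * (((Icc 1 L).filter (fun h => 2 * h ≤ n ∧ n < 4 * h)).card : ℝ) := by
      have a1 := Finset.card_le_card hsub
      have a2 : ((Ioc (n / 4) (n / 2)).card : ℤ) = n / 2 - n / 4 := by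
        rw [Int.card_Ioc, Int.toNat_of_nonneg (by omega)]
      have a3 : n ≤ 8 * (((Icc 1 L).filter (fun h => 2 * h ≤ n ∧ n < 4 * h)).card : ℤ) := by omega
      exact_mod_cast a3
    have hb : ∀ h ∈ (Icc 1 L).filter (fun h => 2 * h ≤ n ∧ n < 4 * h),
        ((n : ℝ) / 4) ^ k2 ≤ (h : ℝ) ^ k2 := by
      intro h hh
      simp only [mem_Icc, mem_filter] at hh
      have a2 : (n : ℝ) ≤ 4 * h := by exact_mod_cast hh.2.2.le
      exact pow_le_pow_left₀ (by positivity) (by linarith) _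
    have := Finset.card_nsmul_le_sum _ _ _ hb
    rw [nsmul_eq_mul] at this
    calc (n : ℝ) ^ (k2 + 1) = 4 ^ k2 * (n * ((n : ℝ) / 4) ^ k2) := by
          rw [div_pow]; field_simp; ring
      _ ≤ 4 ^ k2 * ((8 * (((Icc 1 L).filter (fun h => 2 * h ≤ n ∧ n < 4 * h)).card : ℝ))
            * ((n : ℝ) / 4) ^ k2) :=
          mul_le_mul_of_nonneg_left (mul_le_mul_of_nonneg_right hc (by positivity)) (by positivity)
      _ = 8 * 4 ^ k2 * ((((Icc 1 L).filter (fun h => 2 * h ≤ n ∧ n < 4 * h)).card : ℝ)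
            * ((n : ℝ) / 4) ^ k2) := by ring
      _ ≤ _ := mul_le_mul_of_nonneg_left this (by positivity)
  calc _ ≤ _ := h3
    _ ≤ 8 * 4 ^ k2 * ((1000000000 : ℝ) ^ p * (5 * ∑ q ∈ Icc 1 (5 * L), col q)) :=
        mul_le_mul_of_nonneg_left (h1.trans (mul_le_mul_of_nonneg_left h2 hD)) (by positivity)
    _ = _ := by ring

end Pool.Agent.P.MP_ed7f76_gt
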