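import Pool.Agent.P.MP_ed7f76_gt.Trunc
import Pool.Agent.P.MP_ed7f76_gt.Window

/-! Passage to the limit and the final theorem. -/

namespace Pool.Agent.P.MP_ed7f76_gt

open Finset Filter

lemma summable_G {b : ℤ → ℂ} (hb : Summable fun t : ℤ => (1 + |(t : ℝ)|) * ‖b t‖) (c l q : ℤ) :
    Summable fun m : ℤ => ((|m + c| : ℤ) : ℂ) * (b (m + l) * b (q - m)) := by
  set B0 : ℝ := ∑' t : ℤ, (1 + |(t : ℝ)|) * ‖b t‖ with hB0
  have hB : ∀ t, ‖b t‖ ≤ B0 := by
    intro t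
    have h1 : (1 + |(t : ℝ)|) * ‖b t‖ ≤ B0 := hb.le_tsum t fun _ _ => by positivity
    have h2 : 0 ≤ |(t : ℝ)| * ‖b t‖ := by positivity
    linarith
  have h1 : Summable fun m : ℤ => (1 + |((m + l : ℤ) : ℝ)|) * ‖b (m + l)‖ :=
    (Equiv.addRight l).summable_iff.mpr hb
  refine Summable.of_norm_bounded (h1.mul_left ((1 + |((c - l : ℤ) : ℝ)|) * B0)) fun m => ?_
  rw [norm_mul, norm_mul, Complex.norm_intCast, Int.cast_abs, abs_abs]
  have h2 : |((m + c : ℤ) : ℝ)| ≤ (1 + |((c - l : ℤ) : ℝ)|) * (1 + |((m + l : ℤ) : ℝ)|) := by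
    have e : ((m + c : ℤ) : ℝ) = ((c - l : ℤ) : ℝ) + ((m + l : ℤ) : ℝ) := by push_cast; ring
    rw [e]
    have := abs_add_le ((c - l : ℤ) : ℝ) ((m + l : ℤ) : ℝ)
    have a1 := abs_nonneg ((c - l : ℤ) : ℝ)
    have a2 := abs_nonneg ((m + l : ℤ) : ℝ)
    nlinarith
  calc _ ≤ ((1 + |((c - l : ℤ) : ℝ)|) * (1 + |((m + l : ℤ) : ℝ)|)) * (‖b (m + l)‖ * B0) :=
        mul_le_mul h2 (mul_le_mul_of_nonneg_left (hB _) (norm_nonneg _)) (by positivity)
          (by positivity)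
    _ = _ := by ring

/-- the full kernel -/
noncomputable def Gk (b : ℤ → ℂ) (l q : ℤ) : ℂ :=
  ∑' m : ℤ, ((|m| : ℤ) : ℂ) * (b (m + l) * b (q - m))

lemma Gk_second {b : ℤ → ℂ} (hb : Summable fun t : ℤ => (1 + |(t : ℝ)|) * ‖b t‖) (l q : ℤ) :
    Gk b (l + 1) (q - 1) - 2 * Gk b l q + Gk b (l - 1) (q + 1) = 2 * (b l * b q) := by
  have e1 : Gk b (l + 1) (q - 1) = ∑' m : ℤ, ((|m + -1| : ℤ) : ℂ) * (b (m + l) * b (q - m)) := by
    unfold Gk
    rw [← (Equiv.addRight (1 : ℤ)).tsum_eq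
      (fun m : ℤ => ((|m + -1| : ℤ) : ℂ) * (b (m + l) * b (q - m)))]
    refine tsum_congr fun m => ?_
    simp only [Equiv.coe_addRight]
    congr 3 <;> ring
  have e2 : Gk b (l - 1) (q + 1) = ∑' m : ℤ, ((|m + 1| : ℤ) : ℂ) * (b (m + l) * b (q - m)) := by
    unfold Gk
    rw [← (Equiv.addRight (-1 : ℤ)).tsum_eq
      (fun m : ℤ => ((|m + 1| : ℤ) : ℂ) * (b (m + l) * b (q - m)))]
    refine tsum_congr fun m => ?_
    simp only [Equiv.coe_addRight]
    congr 3 <;> ring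
  have e3 : Gk b l q = ∑' m : ℤ, ((|m + 0| : ℤ) : ℂ) * (b (m + l) * b (q - m)) := by
    simp only [add_zero]; rfl
  have s1 := summable_G hb (-1) l q
  have s2 := summable_G hb 1 l q
  have s3 := (summable_G hb 0 l q).mul_left 2
  rw [e1, e2, e3, ← tsum_mul_left, ← s1.tsum_sub s3, ← (s1.sub s3).tsum_add s2,
    tsum_eq_single 0]
  · simp; ring
  · intro m hm
    have : |m + -1| - 2 * |m + 0| + |m + 1| = 0 := by
      rcases lt_or_gt_of_ne hm with h | h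
      · rw [abs_of_nonpos (by omega), abs_of_nonpos (by omega), abs_of_nonpos (by omega)]; ring
      · rw [abs_of_nonneg (by omega), abs_of_nonneg (by omega), abs_of_nonneg (by omega)]; ring
    have h2 : ((|m + -1| : ℤ) : ℂ) - 2 * ((|m + 0| : ℤ) : ℂ) + ((|m + 1| : ℤ) : ℂ) = 0 := by
      exact_mod_cast this
    linear_combination (b (m + l) * b (q - m)) * h2

lemma tendsto_Icc : Tendsto (fun M : ℕ => Icc (-(M : ℤ)) M) atTop atTop := by
  refine Filter.tendsto_atTop_finset_of_monotone ?_ ?_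
  · intro M M' hM
    refine Finset.Icc_subset_Icc ?_ ?_ <;> omega
  · intro x
    refine ⟨x.natAbs, ?_⟩
    rw [mem_Icc]; omega

lemma tendsto_GM {b : ℤ → ℂ} (hb : Summable fun t : ℤ => (1 + |(t : ℝ)|) * ‖b t‖) (l q : ℤ) :
    Tendsto (fun M : ℕ => GM b (Icc (-(M : ℤ)) M) l q) atTop (nhds (Gk b l q)) := by
  have h1 := (summable_G hb 0 l q).hasSum
  simp only [add_zero] at h1
  have h2 : Tendsto (fun s : Finset ℤ => GM b s l q) atTop (nhds (Gk b l q)) := h1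
  exact h2.comp tendsto_Icc

theorem abstract_main (m n : ℕ) (hn : n + 1 = 2 * (m + 2)) : ∃ c : ℝ, 0 < c ∧
    ∀ b : ℤ → ℂ, (∀ t, b (-t) = star (b t)) →
      (∀ r : ℕ, Summable fun t : ℤ => (1 + |(t : ℝ)|) ^ r * ‖b t‖) →
      ∃ Z S : ℝ, HasSum (fun j : {j : Fin (n + 1) → ℤ // ∑ i, j i = 0} =>
          (Ncoef j.1 : ℂ) * ∏ i, b (j.1 i)) (Z : ℂ) ∧
        HasSum (fun t : ℕ => ((t : ℝ) + 2) ^ (2 * (m + 2) + 1) * ‖b ((t : ℤ) + 2)‖ ^ (2 * (m + 2))) S ∧
        c * S ≤ Z := by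
  set D : ℝ := (40 * 4 ^ (2 * (m + 2)) * (1000000000 : ℝ) ^ (((m + 2 : ℕ) : ℝ) / 2)) with hD
  have hD0 : 0 < D := by positivity
  refine ⟨(D * 2 ^ (m + 3))⁻¹, by positivity, fun b hb hs => ?_⟩
  have hs1 : Summable fun t : ℤ => (1 + |(t : ℝ)|) * ‖b t‖ := by simpa using hs 1
  obtain ⟨Z, hZ, hlim⟩ := exists_limit (n := n) (by rw [hn]; exact even_two_mul _) (hs _)
  have him : Z.im = 0 := by
    have h1 := (Complex.continuous_im.tendsto Z).comp hlim
    have h2 : ∀ M : ℕ, (Complex.im ∘ fun M : ℕ =>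
        ∑ x ∈ Fintype.piFinset (fun _ : Fin (n + 1) => Icc (-(M : ℤ)) M), gterm b x) M = 0 :=
      fun M => (trunc_bound hb m n hn M M le_rfl).1
    exact tendsto_nhds_unique h1 (tendsto_const_nhds.congr fun M => (h2 M).symm)
  have hbound : ∀ L : ℤ, ∑ q ∈ Icc 1 L, (∑ l ∈ Icc 1 L, (l : ℝ) * q * ‖Gk b l q‖ ^ 2)
        ^ (((m + 2 : ℕ) : ℝ) / 2) ≤ 2 ^ (m + 3) * Z.re := by
    intro L
    have h1 := ((Complex.continuous_re.tendsto Z).comp hlim).const_mul (2 ^ (m + 3))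
    have h2 : Tendsto (fun M : ℕ => ∑ q ∈ Icc 1 L,
        (∑ l ∈ Icc 1 L, (l : ℝ) * q * ‖GM b (Icc (-(M : ℤ)) M) l q‖ ^ 2) ^ (((m + 2 : ℕ) : ℝ) / 2))
        atTop (nhds (∑ q ∈ Icc 1 L, (∑ l ∈ Icc 1 L, (l : ℝ) * q * ‖Gk b l q‖ ^ 2)
        ^ (((m + 2 : ℕ) : ℝ) / 2))) := by
      refine tendsto_finsetSum _ fun q _ => Tendsto.rpow_const ?_ (Or.inr (by positivity))
      exact tendsto_finsetSum _ fun l _ => (((tendsto_GM hs1 l q).norm).pow 2).const_mul _
    refine le_of_tendsto_of_tendsto h2 h1 ?_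
    filter_upwards [eventually_ge_atTop L.toNat] with M hM
    exact (trunc_bound hb m n hn L M (by omega)).2
  have hpart : ∀ N : ℕ, ∑ t ∈ range N,
      ((t : ℝ) + 2) ^ (2 * (m + 2) + 1) * ‖b ((t : ℤ) + 2)‖ ^ (2 * (m + 2))
        ≤ D * (2 ^ (m + 3) * Z.re) := by
    intro N
    have h1 := scales (Gk_second hs1) m ((N : ℤ) + 1)
    refine le_trans (le_of_eq ?_) (h1.trans (mul_le_mul_of_nonneg_left (hbound _) hD0.le))
    refine Finset.sum_bij (fun t _ => (t : ℤ) + 2) ?_ ?_ ?_ ?_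
    · intro t ht; simp only [mem_range, mem_Icc] at ht ⊢; omega
    · intro x _ y _ h; omega
    · intro y hy
      simp only [mem_Icc] at hy
      exact ⟨(y - 2).toNat, by simp only [mem_range]; omega, by omega⟩
    · intro t _; push_cast; rfl
  have hnn : ∀ t : ℕ, 0 ≤ ((t : ℝ) + 2) ^ (2 * (m + 2) + 1) * ‖b ((t : ℤ) + 2)‖ ^ (2 * (m + 2)) :=
    fun t => by positivity
  have hsum := summable_of_sum_range_le hnn hpart
  refine ⟨Z.re, _, ?_, hsum.hasSum, ?_⟩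
  · have : (Z.re : ℂ) = Z := Complex.ext (by simp) (by simp [him])
    rw [this]; exact hZ
  · have h1 := Real.tsum_le_of_sum_range_le hnn hpart
    rw [inv_mul_le_iff₀ (by positivity), mul_assoc]
    exact h1

lemma fc_neg (a : ℝ → ℝ) (t : ℤ) : fc a (-t) = star (fc a t) := by
  unfold fc
  rw [star_mul', Complex.star_def, intervalIntegral.integral_of_le (by positivity),
    intervalIntegral.integral_of_le (by positivity), ← integral_conj]
  congr 1
  · simp [map_ofNat]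
  · congr 1
    funext θ
    simp only [map_mul, Complex.conj_ofReal, ← Complex.exp_conj, map_neg, Complex.conj_I,
      map_intCast]
    congr 2; push_cast; ring

lemma fc_deriv {a : ℝ → ℝ} (ha : ContDiff ℝ (⊤ : ℕ∞) a) (hp : Function.Periodic a (2 * Real.pi))
    (t : ℤ) : fc (deriv a) t = (t * Complex.I) * fc a t := by
  have hd : Differentiable ℝ a := ha.differentiable (by simp)
  have hc : Continuous (deriv a) := ha.continuous_deriv (by simp)
  have h1 : ∀ θ : ℝ, HasDerivAt (fun θ : ℝ => (a θ : ℂ)) ((deriv a θ : ℝ) : ℂ) θ :=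
    fun θ => (hd θ).hasDerivAt.ofReal_comp
  have h2 : ∀ θ : ℝ, HasDerivAt (fun θ : ℝ => Complex.exp (-((t : ℂ) * θ * Complex.I)))
      (Complex.exp (-((t : ℂ) * θ * Complex.I)) * (-((t : ℂ) * Complex.I))) θ := by
    intro θ
    have h3 : HasDerivAt (fun θ : ℝ => -((t : ℂ) * θ * Complex.I)) (-((t : ℂ) * Complex.I)) θ := by
      have := (((hasDerivAt_id θ).ofReal_comp.const_mul (t : ℂ)).mul_const Complex.I).fun_neg
      simpa using this
    exact h3.cexp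
  have h4 := intervalIntegral.integral_mul_deriv_eq_deriv_mul (a := 0) (b := 2 * Real.pi)
    (fun θ _ => h1 θ) (fun θ _ => h2 θ)
    ((Complex.continuous_ofReal.comp hc).intervalIntegrable _ _)
    (Continuous.intervalIntegrable (by fun_prop) _ _)
  have h5 : a (2 * Real.pi) = a 0 := by simpa using hp 0
  have h6 : Complex.exp (-((t : ℂ) * ((2 * Real.pi : ℝ) : ℂ) * Complex.I)) = 1 := by
    have := Complex.exp_int_mul_two_pi_mul_I (-t)
    rw [← this]; congr 1; push_cast; ring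
  rw [h5, h6] at h4
  simp only [Complex.ofReal_zero, mul_zero, zero_mul, neg_zero, Complex.exp_zero, sub_self,
    zero_sub] at h4
  have h7 : ∫ x in (0 : ℝ)..(2 * Real.pi),
      (a x : ℂ) * (Complex.exp (-((t : ℂ) * x * Complex.I)) * (-((t : ℂ) * Complex.I)))
      = (∫ x in (0 : ℝ)..(2 * Real.pi), (a x : ℂ) * Complex.exp (-((t : ℂ) * x * Complex.I)))
        * (-((t : ℂ) * Complex.I)) := by
    rw [← intervalIntegral.integral_mul_const]
    simp only [mul_assoc]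
  rw [h7] at h4
  unfold fc
  linear_combination (1 / (2 * Real.pi) : ℂ) * h4

lemma fc_decay (r : ℕ) : ∀ a : ℝ → ℝ, ContDiff ℝ (⊤ : ℕ∞) a → Function.Periodic a (2 * Real.pi) →
    ∃ C : ℝ, ∀ t : ℤ, |(t : ℝ)| ^ r * ‖fc a t‖ ≤ C := by
  induction r with
  | zero =>
    intro a ha _
    refine ⟨‖(1 / (2 * Real.pi) : ℂ)‖ * ∫ θ in (0 : ℝ)..(2 * Real.pi), |a θ|, fun t => ?_⟩
    rw [pow_zero, one_mul]
    unfold fc
    rw [norm_mul]
    refine mul_le_mul_of_nonneg_left ?_ (norm_nonneg _)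
    refine (intervalIntegral.norm_integral_le_integral_norm (by positivity)).trans (le_of_eq ?_)
    refine intervalIntegral.integral_congr fun θ _ => ?_
    have e : -((t : ℂ) * θ * Complex.I) = ((-(t * θ) : ℝ) : ℂ) * Complex.I := by push_cast; ring
    simp only [norm_mul, Complex.norm_real, Real.norm_eq_abs, e, Complex.norm_exp_ofReal_mul_I,
      mul_one]
  | succ r ih =>
    intro a ha hp
    have ha' : ContDiff ℝ (⊤ : ℕ∞) (deriv a) := ha.iterate_deriv 1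
    have hp' : Function.Periodic (deriv a) (2 * Real.pi) := by
      intro x
      rw [← deriv_comp_add_const]
      congr 1; funext y; exact hp y
    obtain ⟨C, hC⟩ := ih _ ha' hp'
    refine ⟨C, fun t => ?_⟩
    have := hC t
    rw [fc_deriv ha hp, norm_mul, norm_mul, Complex.norm_I, Complex.norm_intCast, mul_one] at this
    rw [pow_succ, mul_assoc]
    exact this

lemma fc_summable {a : ℝ → ℝ} (ha : ContDiff ℝ (⊤ : ℕ∞) a) (hp : Function.Periodic a (2 * Real.pi))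
    (r : ℕ) : Summable fun t : ℤ => (1 + |(t : ℝ)|) ^ r * ‖fc a t‖ := by
  obtain ⟨C0, h0⟩ := fc_decay 0 a ha hp
  obtain ⟨C1, h1⟩ := fc_decay (r + 2) a ha hp
  refine Summable.of_nonneg_of_le (fun t => by positivity) (fun t => ?_)
    (summable_inv_sq.mul_left (2 ^ (r + 2) * (C0 + C1)))
  have a0 := h0 t
  have a1 := h1 t
  rw [pow_zero, one_mul] at a0
  have hx : 0 ≤ |(t : ℝ)| := abs_nonneg _
  have hn : 0 ≤ ‖fc a t‖ := norm_nonneg _
  have e : (t : ℝ) ^ 2 = |(t : ℝ)| ^ 2 := (sq_abs _).symm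
  rw [e]
  generalize |(t : ℝ)| = x at *
  generalize ‖fc a t‖ = y at *
  have h3 : (1 + x) ^ (r + 2) ≤ 2 ^ (r + 2) * (1 + x ^ (r + 2)) := by
    rcases le_total x 1 with h | h
    · calc _ ≤ (2 : ℝ) ^ (r + 2) := pow_le_pow_left₀ (by linarith) (by linarith) _
        _ ≤ _ := le_mul_of_one_le_right (by positivity) (by have := pow_nonneg hx (r + 2); linarith)
    · calc _ ≤ (2 * x : ℝ) ^ (r + 2) := pow_le_pow_left₀ (by linarith) (by linarith) _
        _ = 2 ^ (r + 2) * x ^ (r + 2) := mul_pow _ _ _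
        _ ≤ _ := mul_le_mul_of_nonneg_left (by linarith) (by positivity)
  rw [mul_one_div, le_div_iff₀ (by positivity)]
  calc (1 + x) ^ r * y * (1 + x ^ 2) ≤ (1 + x) ^ r * y * (1 + x) ^ 2 :=
        mul_le_mul_of_nonneg_left (by nlinarith) (by positivity)
    _ = (1 + x) ^ (r + 2) * y := by ring
    _ ≤ 2 ^ (r + 2) * (1 + x ^ (r + 2)) * y := mul_le_mul_of_nonneg_right h3 hn
    _ = 2 ^ (r + 2) * (y + x ^ (r + 2) * y) := by ring
    _ ≤ _ := mul_le_mul_of_nonneg_left (by linarith) (by positivity)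

theorem main_aux (N k : ℕ) (hN : N = 2 * k) (hk : 2 ≤ k) : ∃ c : ℝ, 0 < c ∧
    ∀ a : ℝ → ℝ, ContDiff ℝ (⊤ : ℕ∞) a → Function.Periodic a (2 * Real.pi) →
      ∃ Z S : ℝ, HasSum (fun j : {j : Fin N → ℤ // ∑ i, j i = 0} =>
          (Ncoef j.1 : ℂ) * ∏ i, fc a (j.1 i)) (Z : ℂ) ∧
        HasSum (fun t : ℕ => ((t : ℝ) + 2) ^ (2 * k + 1) * ‖fc a ((t : ℤ) + 2)‖ ^ (2 * k)) S ∧
        c * S ≤ Z := by
  obtain ⟨m, rfl⟩ : ∃ m, k = m + 2 := ⟨k - 2, by omega⟩
  rcases N with _ | n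
  · omega
  obtain ⟨c, hc, h⟩ := abstract_main m n hN
  exact ⟨c, hc, fun a ha hp => h (fc a) (fc_neg a) (fc_summable ha hp)⟩

end Pool.Agent.P.MP_ed7f76_gt
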