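import Pool.Agent.P.MP_ed7f76_gt.Defs

/-! Traces of powers as sums over closed paths; absolute convergence of the zeta series. -/

namespace Pool.Agent.P.MP_ed7f76_gt

open Finset

lemma pow_entry_paths {ι : Type*} [Fintype ι] [DecidableEq ι] (A : Matrix ι ι ℂ) (q : ι) :
    ∀ (n : ℕ) (p : ι), (A ^ (n + 1)) p q = ∑ y : Fin n → ι, ∏ i : Fin (n + 1),
      A ((Fin.cons p y : Fin (n + 1) → ι) i) ((Fin.snoc y q : Fin (n + 1) → ι) i) := by
  intro n
  induction n with
  | zero =>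
    intro p
    simp only [zero_add, pow_one, Finset.univ_unique, Finset.sum_singleton]
    rw [Fin.prod_univ_succ]
    simp [Fin.snoc]
  | succ n ih =>
    intro p
    rw [pow_succ', Matrix.mul_apply, ← (Fin.consEquiv fun _ : Fin (n + 1) => ι).sum_comp,
      Fintype.sum_prod_type]
    refine Finset.sum_congr rfl fun r _ => ?_
    rw [ih r, Finset.mul_sum]
    refine Finset.sum_congr rfl fun y _ => ?_
    conv_rhs => rw [Fin.prod_univ_succ]
    have e : (Fin.snoc (Fin.cons r y : Fin (n + 1) → ι) q : Fin (n + 2) → ι)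
        = Fin.cons r (Fin.snoc y q : Fin (n + 1) → ι) := (Fin.cons_snoc_eq_snoc_cons r y q).symm
    have e2 : ((Fin.consEquiv fun _ : Fin (n + 1) => ι) (r, y)) = Fin.cons r y := rfl
    simp only [e2, e, Fin.cons_zero, Fin.cons_succ]

lemma trace_pow_paths {ι : Type*} [Fintype ι] [DecidableEq ι] (A : Matrix ι ι ℂ) (n : ℕ) :
    Matrix.trace (A ^ (n + 1)) = ∑ x : Fin (n + 1) → ι, ∏ i, A (x i) (x (i + 1)) := by
  rw [← (Fin.consEquiv fun _ : Fin (n + 1) => ι).sum_comp, Fintype.sum_prod_type]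
  simp only [Matrix.trace, Matrix.diag]
  refine Finset.sum_congr rfl fun p _ => ?_
  rw [pow_entry_paths]
  refine Finset.sum_congr rfl fun y _ => Finset.prod_congr rfl fun i _ => ?_
  rw [Fin.snoc_eq_cons_rotate]
  simp only [Fin.consEquiv_apply, finRotate_apply]

/-- the closed path attached to steps `j` and starting point `n` -/
def pathOf {N : ℕ} (j : Fin N → ℤ) (n : ℤ) : Fin N → ℤ := fun i => n + ∑ t ∈ Iio i, j t

lemma pathOf_zero {n : ℕ} (j : Fin (n + 1) → ℤ) (s : ℤ) : pathOf j s 0 = s := by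
  have : (Iio (0 : Fin (n + 1))) = ∅ := by ext t; simp
  simp [pathOf, this]

lemma pathOf_step {n : ℕ} {j : Fin (n + 1) → ℤ} (hj : ∑ i, j i = 0) (s : ℤ) (i : Fin (n + 1)) :
    pathOf j s (i + 1) - pathOf j s i = j i := by
  induction i using Fin.lastCases with
  | last =>
    rw [Fin.last_add_one, pathOf_zero]
    have : (univ : Finset (Fin (n + 1))) = insert (Fin.last n) (Iio (Fin.last n)) := by
      ext t
      simp only [mem_univ, mem_insert, mem_Iio, true_iff]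
      exact (Fin.le_last t).eq_or_lt
    rw [this, Finset.sum_insert (by simp)] at hj
    simp only [pathOf]
    omega
  | cast i =>
    rw [Fin.coeSucc_eq_succ]
    have : Iio (Fin.succ i) = insert (Fin.castSucc i) (Iio (Fin.castSucc i)) := by
      ext t
      simp only [mem_Iio, mem_insert, Fin.lt_def, Fin.ext_iff, Fin.val_succ, Fin.val_castSucc]
      omega
    simp only [pathOf]
    rw [this, Finset.sum_insert (by simp)]
    ring

lemma pathOf_bij (n : ℕ) : Function.Bijective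
    (fun p : {j : Fin (n + 1) → ℤ // ∑ i, j i = 0} × ℤ => pathOf p.1.1 p.2) := by
  constructor
  · rintro ⟨⟨j, hj⟩, s⟩ ⟨⟨j', hj'⟩, s'⟩ h
    simp only at h
    have h1 : s = s' := by rw [← pathOf_zero j s, h, pathOf_zero]
    have h2 : j = j' := by
      funext i; rw [← pathOf_step hj s i, h, pathOf_step hj' s' i]
    subst h1 h2; rfl
  · intro x
    have hj : ∑ i, (x (i + 1) - x i) = 0 := by
      rw [Finset.sum_sub_distrib, sub_eq_zero]
      exact Equiv.sum_comp (Equiv.addRight (1 : Fin (n + 1))) x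
    refine ⟨⟨⟨fun i => x (i + 1) - x i, hj⟩, x 0⟩, ?_⟩
    funext i
    simp only
    induction i using Fin.induction with
    | zero => exact pathOf_zero _ _
    | succ i ih =>
      have := pathOf_step hj (x 0) (Fin.castSucc i)
      rw [Fin.coeSucc_eq_succ, ih] at this
      omega

lemma one_add_sum_le {ι : Type*} (s : Finset ι) (a : ι → ℝ) (ha : ∀ i, 0 ≤ a i) :
    1 + ∑ i ∈ s, a i ≤ ∏ i ∈ s, (1 + a i) := by
  classical
  induction s using Finset.induction_on with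
  | empty => simp
  | insert i s hi ih =>
    rw [Finset.sum_insert hi, Finset.prod_insert hi]
    have h1 := ha i
    have h2 : 0 ≤ ∑ i ∈ s, a i := Finset.sum_nonneg fun i _ => ha i
    nlinarith

lemma partial_le {N : ℕ} (j : Fin N → ℤ) (i : Fin N) : |∑ t ∈ Iio i, j t| ≤ ∑ t, |j t| :=
  (Finset.abs_sum_le_sum_abs _ _).trans
    (Finset.sum_le_sum_of_subset_of_nonneg (Finset.subset_univ _) fun _ _ _ => abs_nonneg _)

lemma supp_bound {N : ℕ} (hN : Even N) (j : Fin N → ℤ) (n : ℤ)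
    (h : |fpoly j n| - fpoly j n ≠ 0) : |n| ≤ ∑ t, |j t| := by
  have hneg : fpoly j n < 0 := by
    by_contra hc
    rw [abs_of_nonneg (not_lt.mp hc), sub_self] at h
    exact h rfl
  have h1 : ∃ i, n + ∑ t ∈ Iio i, j t < 0 := by
    by_contra hc
    push Not at hc
    exact absurd (Finset.prod_nonneg fun i _ => hc i) (not_le.mpr hneg)
  have h2 : ∃ i, 0 < n + ∑ t ∈ Iio i, j t := by
    by_contra hc
    push Not at hc
    have h3 : 0 ≤ ∏ i : Fin N, -(n + ∑ t ∈ Iio i, j t) :=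
      Finset.prod_nonneg fun i _ => neg_nonneg.mpr (hc i)
    rw [Finset.prod_neg, Finset.card_univ, Fintype.card_fin, hN.neg_one_pow, one_mul] at h3
    exact absurd h3 (not_le.mpr hneg)
  obtain ⟨i, hi⟩ := h1
  obtain ⟨i', hi'⟩ := h2
  have a1 := abs_le.mp (partial_le j i)
  have a2 := abs_le.mp (partial_le j i')
  rw [abs_le]; constructor <;> omega

lemma term_bound {N : ℕ} (hN : Even N) (j : Fin N → ℤ) (n : ℤ) :
    |((|fpoly j n| - fpoly j n : ℤ) : ℝ)| ≤
      2 * 2 ^ N * (∏ t, (1 + |(j t : ℝ)|)) ^ (N + 2) * (1 / (1 + (n : ℝ) ^ 2)) := by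
  by_cases h : |fpoly j n| - fpoly j n = 0
  · rw [h]; simp only [Int.cast_zero, abs_zero]; positivity
  have h1 := supp_bound hN j n h
  set P : ℝ := ∏ t, (1 + |(j t : ℝ)|) with hP
  set J : ℝ := ∑ t, |(j t : ℝ)| with hJ
  have hJ0 : 0 ≤ J := Finset.sum_nonneg fun _ _ => abs_nonneg _
  have hPJ : 1 + J ≤ P := one_add_sum_le _ _ fun _ => abs_nonneg _
  have h1' : |(n : ℝ)| ≤ J := by rw [hJ]; exact_mod_cast h1
  have h2 : |(fpoly j n : ℝ)| ≤ (2 * P) ^ N := by
    unfold fpoly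
    push_cast
    rw [Finset.abs_prod]
    refine (Finset.prod_le_prod (g := fun _ => 2 * P) (fun _ _ => abs_nonneg _) fun i _ => ?_).trans
      (by simp)
    have a1 : |∑ t ∈ Iio i, (j t : ℝ)| ≤ J := by
      have := partial_le j i
      rw [hJ]; exact_mod_cast this
    have a2 := abs_add_le (n : ℝ) (∑ t ∈ Iio i, (j t : ℝ))
    linarith
  have h3 : 1 + (n : ℝ) ^ 2 ≤ P ^ 2 := by
    have := sq_le_sq' (by linarith [abs_le.mp h1']) (abs_le.mp h1').2
    nlinarith
  have h4 : |((|fpoly j n| - fpoly j n : ℤ) : ℝ)| ≤ 2 * (2 * P) ^ N := by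
    push_cast
    have := abs_sub (|(fpoly j n : ℝ)|) (fpoly j n : ℝ)
    rw [abs_abs] at this
    linarith
  have h5 : (0 : ℝ) < 1 + (n : ℝ) ^ 2 := by positivity
  have hP0 : 0 ≤ P := by linarith
  rw [mul_one_div, le_div_iff₀ h5]
  calc _ ≤ 2 * (2 * P) ^ N * P ^ 2 := mul_le_mul h4 h3 h5.le (by positivity)
    _ = _ := by ring

lemma summable_pi {N : ℕ} {c : ℤ → ℝ} (hc0 : ∀ t, 0 ≤ c t) (hc : Summable c) :
    Summable fun j : Fin N → ℤ => ∏ i, c (j i) := by
  classical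
  refine summable_of_sum_le (c := (∑' t, c t) ^ N)
    (fun j => Finset.prod_nonneg fun _ _ => hc0 _) fun s => ?_
  set T : Finset ℤ := s.biUnion fun j => univ.image j with hT
  have h1 : s ⊆ Fintype.piFinset fun _ : Fin N => T := by
    intro j hj
    rw [Fintype.mem_piFinset]
    intro i
    exact Finset.mem_biUnion.mpr ⟨j, hj, Finset.mem_image_of_mem _ (mem_univ i)⟩
  calc _ ≤ ∑ j ∈ Fintype.piFinset fun _ : Fin N => T, ∏ i, c (j i) :=
        Finset.sum_le_sum_of_subset_of_nonneg h1 fun j _ _ => Finset.prod_nonneg fun _ _ => hc0 _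
    _ = ∏ _i : Fin N, ∑ t ∈ T, c t := (Finset.prod_univ_sum _ _).symm
    _ = (∑ t ∈ T, c t) ^ N := by simp
    _ ≤ _ := pow_le_pow_left₀ (Finset.sum_nonneg fun _ _ => hc0 _)
        (hc.sum_le_tsum _ fun _ _ => hc0 _) _

lemma summable_inv_sq : Summable fun n : ℤ => 1 / (1 + (n : ℝ) ^ 2) := by
  have h := Real.summable_one_div_int_pow.mpr (one_lt_two)
  have h2 : Summable fun n : ℤ => (if n = 0 then (1 : ℝ) else 0) := summable_of_hasFiniteSupport
    ((Set.finite_singleton 0).subset (by intro n hn; by_contra hc; simp_all))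
  refine Summable.of_nonneg_of_le (fun n => by positivity) (fun n => ?_) (h.add h2)
  split_ifs with hn
  · simp [hn]
  · have : (0 : ℝ) < (n : ℝ) ^ 2 := by positivity
    rw [add_zero]
    exact one_div_le_one_div_of_le this (by linarith)

lemma summable_pairs {N : ℕ} (hN : Even N) {b : ℤ → ℂ}
    (hb : Summable fun t : ℤ => (1 + |(t : ℝ)|) ^ (N + 2) * ‖b t‖) :
    Summable fun p : {j : Fin N → ℤ // ∑ i, j i = 0} × ℤ =>
      ((|fpoly p.1.1 p.2| - fpoly p.1.1 p.2 : ℤ) : ℂ) * ∏ i, b (p.1.1 i) := by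
  have h1 := (summable_pi (N := N) (fun t => by positivity) hb).subtype {j | ∑ i, j i = 0}
  have h2 := (Summable.mul_of_nonneg h1 summable_inv_sq
    (fun j => Finset.prod_nonneg fun _ _ => by positivity) (fun n => by positivity)).mul_left
    (2 * 2 ^ N)
  refine Summable.of_norm_bounded h2 fun p => ?_
  rw [norm_mul, Complex.norm_intCast, norm_prod]
  have h3 := term_bound hN p.1.1 p.2
  simp only [Function.comp_apply]
  rw [Finset.prod_mul_distrib, Finset.prod_pow]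
  calc _ ≤ (2 * 2 ^ N * (∏ t, (1 + |(p.1.1 t : ℝ)|)) ^ (N + 2) * (1 / (1 + (p.2 : ℝ) ^ 2)))
        * ∏ i, ‖b (p.1.1 i)‖ := mul_le_mul_of_nonneg_right h3 (by positivity)
    _ = _ := by ring

lemma hasSum_Ncoef {N : ℕ} (hN : Even N) (j : Fin N → ℤ) (c : ℂ) :
    HasSum (fun n : ℤ => ((|fpoly j n| - fpoly j n : ℤ) : ℂ) * c) ((Ncoef j : ℂ) * c) := by
  set J := ∑ t, |j t| with hJ
  have hs : ∀ n, n ∉ Icc (-J) J → |fpoly j n| - fpoly j n = 0 := by
    intro n hn
    by_contra h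
    exact hn (mem_Icc.mpr (abs_le.mp (supp_bound hN j n h)))
  have e : Ncoef j = ∑ n ∈ Icc (-J) J, (|fpoly j n| - fpoly j n) := by
    unfold Ncoef
    refine finsum_eq_sum_of_support_subset _ fun n hn => ?_
    by_contra hc
    exact hn (hs n (by simpa using hc))
  rw [e, Int.cast_sum, Finset.sum_mul]
  exact hasSum_sum_of_ne_finset_zero fun n hn => by rw [hs n hn]; simp

/-- the summand attached to a closed path -/
noncomputable def gterm {n : ℕ} (b : ℤ → ℂ) (x : Fin (n + 1) → ℤ) : ℂ :=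
  ((|∏ i, x i| - ∏ i, x i : ℤ) : ℂ) * ∏ i, b (x (i + 1) - x i)

lemma hasSum_gterm {n : ℕ} {b : ℤ → ℂ} {Z : ℂ}
    (hZ : HasSum (fun p : {j : Fin (n + 1) → ℤ // ∑ i, j i = 0} × ℤ =>
          ((|fpoly p.1.1 p.2| - fpoly p.1.1 p.2 : ℤ) : ℂ) * ∏ i, b (p.1.1 i)) Z) :
    HasSum (gterm (n := n) b) Z := by
  rw [← (Equiv.ofBijective _ (pathOf_bij n)).hasSum_iff]
  have e : (gterm (n := n) b) ∘ (Equiv.ofBijective _ (pathOf_bij n))
      = fun p : {j : Fin (n + 1) → ℤ // ∑ i, j i = 0} × ℤ =>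
        ((|fpoly p.1.1 p.2| - fpoly p.1.1 p.2 : ℤ) : ℂ) * ∏ i, b (p.1.1 i) := by
    funext p
    simp only [Function.comp_apply, Equiv.ofBijective_apply, gterm, pathOf_step p.1.2]
    rfl
  rw [e]
  exact hZ

lemma tendsto_box (N : ℕ) : Filter.Tendsto
    (fun M : ℕ => Fintype.piFinset (fun _ : Fin N => Icc (-(M : ℤ)) M)) Filter.atTop Filter.atTop := by
  refine Filter.tendsto_atTop_finset_of_monotone ?_ ?_
  · intro M M' hM
    refine Fintype.piFinset_subset _ _ fun _ => Finset.Icc_subset_Icc ?_ ?_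
    · omega
    · omega
  · intro x
    refine ⟨∑ i, (x i).natAbs, Fintype.mem_piFinset.mpr fun i => ?_⟩
    have : (x i).natAbs ≤ ∑ i, (x i).natAbs :=
      Finset.single_le_sum (f := fun i => (x i).natAbs) (fun _ _ => Nat.zero_le _) (mem_univ i)
    rw [mem_Icc]
    generalize ∑ i, (x i).natAbs = S at this ⊢
    omega

lemma hasSum_fiber {N : ℕ} (hN : Even N) {b : ℤ → ℂ} {Z : ℂ}
    (hZ : HasSum (fun p : {j : Fin N → ℤ // ∑ i, j i = 0} × ℤ =>
          ((|fpoly p.1.1 p.2| - fpoly p.1.1 p.2 : ℤ) : ℂ) * ∏ i, b (p.1.1 i)) Z) :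
    HasSum (fun j : {j : Fin N → ℤ // ∑ i, j i = 0} =>
        (Ncoef j.1 : ℂ) * ∏ i, b (j.1 i)) Z :=
  HasSum.prod_fiberwise hZ fun j => hasSum_Ncoef hN j.1 (∏ i, b (j.1 i))

theorem exists_limit {n : ℕ} (hN : Even (n + 1)) {b : ℤ → ℂ}
    (hb : Summable fun t : ℤ => (1 + |(t : ℝ)|) ^ (n + 1 + 2) * ‖b t‖) :
    ∃ Z : ℂ, HasSum (fun j : {j : Fin (n + 1) → ℤ // ∑ i, j i = 0} =>
        (Ncoef j.1 : ℂ) * ∏ i, b (j.1 i)) Z ∧
      Filter.Tendsto (fun M : ℕ =>
        ∑ x ∈ Fintype.piFinset (fun _ : Fin (n + 1) => Icc (-(M : ℤ)) M), gterm b x)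
        Filter.atTop (nhds Z) := by
  obtain ⟨Z, hZ⟩ := summable_pairs hN hb
  refine ⟨Z, hasSum_fiber hN hZ, ?_⟩
  have h2 : Filter.Tendsto (fun s : Finset (Fin (n + 1) → ℤ) => ∑ x ∈ s, gterm b x)
      Filter.atTop (nhds Z) := hasSum_gterm hZ
  exact h2.comp (tendsto_box (n + 1))

end Pool.Agent.P.MP_ed7f76_gt
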