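import Pool.Agent.P.MP_ed7f76_gt.Chess

/-! Spectral part: column norms of `A^2 - B^2` are controlled by the deficiency. -/

namespace Pool.Agent.P.MP_ed7f76_gt

open Matrix

variable {ι : Type*} [Fintype ι] [DecidableEq ι]

lemma exists_diag {Y : Matrix ι ι ℂ} (hY : Yᴴ = Y) :
    ∃ (U : Matrix ι ι ℂ) (d : ι → ℝ), Uᴴ * U = 1 ∧ U * Uᴴ = 1 ∧
      Y = U * diagonal (fun i => (d i : ℂ)) * Uᴴ := by
  have h : Y.IsHermitian := hY
  refine ⟨h.eigenvectorUnitary, h.eigenvalues, ?_, ?_, ?_⟩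
  · exact (Matrix.mem_unitaryGroup_iff'.mp h.eigenvectorUnitary.2)
  · exact (Matrix.mem_unitaryGroup_iff.mp h.eigenvectorUnitary.2)
  · have := h.spectral_theorem
    rw [Unitary.conjStarAlgAut_apply] at this
    exact this

lemma conj_pow {U V X : Matrix ι ι ℂ} (h1 : V * U = 1) (h2 : U * V = 1) (n : ℕ) :
    (U * X * V) ^ n = U * X ^ n * V := by
  induction n with
  | zero => simp [h2]
  | succ n ih =>
    rw [pow_succ, ih, pow_succ]
    calc U * X ^ n * V * (U * X * V) = U * X ^ n * (V * U) * X * V := by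
          simp only [Matrix.mul_assoc]
      _ = _ := by rw [h1]; simp only [Matrix.mul_one, Matrix.mul_assoc]

lemma diag_entry (U : Matrix ι ι ℂ) (d : ι → ℝ) (i : ι) :
    ((U * diagonal (fun i => (d i : ℂ)) * Uᴴ) i i).re = ∑ α, ‖U i α‖ ^ 2 * d α := by
  rw [Matrix.mul_apply, Complex.re_sum]
  refine Finset.sum_congr rfl fun α _ => ?_
  rw [Matrix.mul_diagonal, Matrix.conjTranspose_apply, Complex.star_def]
  have : U i α * (d α : ℂ) * (starRingEnd ℂ) (U i α) = ((‖U i α‖ ^ 2 * d α : ℝ) : ℂ) := by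
    rw [mul_right_comm, Complex.mul_conj']; push_cast; ring
  rw [this, Complex.ofReal_re]

lemma pow_entry {U : Matrix ι ι ℂ} {d : ι → ℝ} (h1 : Uᴴ * U = 1) (h2 : U * Uᴴ = 1) (n : ℕ) (i : ι) :
    (((U * diagonal (fun i => (d i : ℂ)) * Uᴴ) ^ n) i i).re = ∑ α, ‖U i α‖ ^ 2 * d α ^ n := by
  rw [conj_pow h1 h2, Matrix.diagonal_pow]
  have : (fun i => (d i : ℂ)) ^ n = fun i => ((d i ^ n : ℝ) : ℂ) := by
    ext i; simp
  rw [this, diag_entry]

lemma row_sum {U : Matrix ι ι ℂ} (h2 : U * Uᴴ = 1) (i : ι) : ∑ α, ‖U i α‖ ^ 2 = 1 := by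
  have := diag_entry U (fun _ => 1) i
  simp only [Complex.ofReal_one, diagonal_one, h2, one_apply_eq, Complex.one_re,
    mul_one] at this
  exact this.symm

lemma col_sum {U : Matrix ι ι ℂ} (h1 : Uᴴ * U = 1) (α : ι) : ∑ i, ‖U i α‖ ^ 2 = 1 := by
  have := row_sum (U := Uᴴ) (by simpa using h1) α
  simpa using this

lemma jensen_entry {A : Matrix ι ι ℂ} (hA : Aᴴ = A) (m : ℕ) (i : ι) :
    0 ≤ ((A ^ 2) i i).re ∧ ((A ^ 2) i i).re ^ m ≤ ((A ^ (2 * m)) i i).re := by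
  obtain ⟨U, d, h1, h2, rfl⟩ := exists_diag hA
  rw [pow_entry h1 h2, pow_entry h1 h2]
  refine ⟨by positivity, ?_⟩
  have := Real.pow_arith_mean_le_arith_mean_pow Finset.univ (fun α => ‖U i α‖ ^ 2)
    (fun α => d α ^ 2) (fun _ _ => by positivity) (row_sum h2 i) (fun _ _ => by positivity) m
  simpa only [← pow_mul] using this

lemma col_sq {Y : Matrix ι ι ℂ} (hY : Yᴴ = Y) (l : ι) :
    ∑ p, ‖Y p l‖ ^ 2 = ((Y ^ 2) l l).re := by
  rw [pow_two, Matrix.mul_apply, Complex.re_sum]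
  refine Finset.sum_congr rfl fun p _ => ?_
  have : Y l p = (starRingEnd ℂ) (Y p l) := by
    conv_lhs => rw [← hY]
    rfl
  rw [this, Complex.conj_mul']
  norm_cast

lemma fs_diag {U A : Matrix ι ι ℂ} {d : ι → ℝ} (h1 : Uᴴ * U = 1) (h2 : U * Uᴴ = 1)
    (hA : Aᴴ = A) (m : ℕ) :
    fs ((U * diagonal (fun i => (d i : ℂ)) * Uᴴ) * A ^ m)
      = ∑ α, d α ^ 2 * (((Uᴴ * A * U) ^ (2 * m)) α α).re := by
  set D : Matrix ι ι ℂ := diagonal (fun i => (d i : ℂ)) with hD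
  have hDH : Dᴴ = D := by
    rw [hD, Matrix.diagonal_conjTranspose]; congr 1; ext i; simp
  rw [← rt_star_mul, conj_pow h2 h1]
  have e : ((U * D * Uᴴ) * A ^ m)ᴴ * ((U * D * Uᴴ) * A ^ m)
      = (A ^ m * U) * (D * D * Uᴴ * A ^ m) := by
    simp only [Matrix.conjTranspose_mul, Matrix.conjTranspose_pow, hA, hDH,
      Matrix.conjTranspose_conjTranspose]
    calc A ^ m * (U * (D * Uᴴ)) * (U * D * Uᴴ * A ^ m)
        = A ^ m * U * D * (Uᴴ * U) * D * Uᴴ * A ^ m := by simp only [Matrix.mul_assoc]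
      _ = _ := by rw [h1]; simp only [Matrix.mul_one, Matrix.mul_assoc]
  rw [e, rt_mul_comm]
  have e2 : D * D * Uᴴ * A ^ m * (A ^ m * U) = (D * D) * (Uᴴ * A ^ (2 * m) * U) := by
    rw [two_mul, pow_add]; simp only [Matrix.mul_assoc]
  rw [e2, hD, Matrix.diagonal_mul_diagonal]
  unfold rt
  simp only [Matrix.trace, Matrix.diag, Matrix.diagonal_mul, Complex.re_sum]
  refine Finset.sum_congr rfl fun α _ => ?_
  rw [← Complex.ofReal_mul, Complex.re_ofReal_mul, pow_two]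

lemma abs_pow_le {x y : ℝ} (hx : 0 ≤ x) (hy : 0 ≤ y) (m : ℕ) : |x - y| ^ m ≤ x ^ m + y ^ m := by
  rcases le_total x y with h | h
  · have : |x - y| ≤ y := by rw [abs_le]; constructor <;> linarith
    have := pow_le_pow_left₀ (abs_nonneg _) this m
    have : 0 ≤ x ^ m := by positivity
    linarith
  · have : |x - y| ≤ x := by rw [abs_le]; constructor <;> linarith
    have := pow_le_pow_left₀ (abs_nonneg _) this m
    have : 0 ≤ y ^ m := by positivity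
    linarith

theorem cols_le_fs {A B : Matrix ι ι ℂ} (hA : Aᴴ = A) (hB : Bᴴ = B) (m : ℕ) :
    ∑ l, (∑ p, ‖(A ^ 2 - B ^ 2) p l‖ ^ 2) ^ (((m + 2 : ℕ) : ℝ) / 2) ≤
      fs ((A ^ 2 - B ^ 2) * A ^ m) + fs ((A ^ 2 - B ^ 2) * B ^ m) := by
  have hY : (A ^ 2 - B ^ 2)ᴴ = A ^ 2 - B ^ 2 := by
    simp only [Matrix.conjTranspose_sub, Matrix.conjTranspose_pow, hA, hB]
  obtain ⟨U, d, h1, h2, hYd⟩ := exists_diag hY
  have hd : ∀ α, d α = (((Uᴴ * A * U) ^ 2) α α).re - (((Uᴴ * B * U) ^ 2) α α).re := by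
    intro α
    have : (Uᴴ * A * U) ^ 2 - (Uᴴ * B * U) ^ 2 = diagonal (fun i => (d i : ℂ)) := by
      rw [conj_pow h2 h1, conj_pow h2 h1, ← Matrix.sub_mul, ← Matrix.mul_sub, hYd]
      calc Uᴴ * (U * diagonal (fun i => (d i : ℂ)) * Uᴴ) * U
          = (Uᴴ * U) * diagonal (fun i => (d i : ℂ)) * (Uᴴ * U) := by
            simp only [Matrix.mul_assoc]
        _ = _ := by rw [h1]; simp
    have h3 := congrFun (congrFun this α) α
    rw [Matrix.sub_apply, Matrix.diagonal_apply_eq] at h3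
    rw [← Complex.sub_re, h3, Complex.ofReal_re]
  have hA' : (Uᴴ * A * U)ᴴ = Uᴴ * A * U := by
    simp only [Matrix.conjTranspose_mul, hA, Matrix.conjTranspose_conjTranspose, Matrix.mul_assoc]
  have hB' : (Uᴴ * B * U)ᴴ = Uᴴ * B * U := by
    simp only [Matrix.conjTranspose_mul, hB, Matrix.conjTranspose_conjTranspose, Matrix.mul_assoc]
  have step1 : ∑ l, (∑ p, ‖(A ^ 2 - B ^ 2) p l‖ ^ 2) ^ (((m + 2 : ℕ) : ℝ) / 2)
      ≤ ∑ α, |d α| ^ (m + 2) := by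
    have : ∀ l, (∑ p, ‖(A ^ 2 - B ^ 2) p l‖ ^ 2) ^ (((m + 2 : ℕ) : ℝ) / 2)
        ≤ ∑ α, ‖U l α‖ ^ 2 * |d α| ^ (m + 2) := by
      intro l
      rw [col_sq hY, hYd, pow_entry h1 h2]
      have hp : (1 : ℝ) ≤ ((m + 2 : ℕ) : ℝ) / 2 := by
        push_cast; have : (0 : ℝ) ≤ m := by positivity
        linarith
      have := Real.rpow_arith_mean_le_arith_mean_rpow Finset.univ (fun α => ‖U l α‖ ^ 2)
        (fun α => d α ^ 2) (fun _ _ => by positivity) (row_sum h2 l) (fun _ _ => by positivity) hp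
      refine this.trans (le_of_eq (Finset.sum_congr rfl fun α _ => ?_))
      congr 1
      rw [← sq_abs, ← Real.rpow_natCast, ← Real.rpow_mul (abs_nonneg _), ← Real.rpow_natCast]
      congr 1
      push_cast; ring
    refine (Finset.sum_le_sum fun l _ => this l).trans (le_of_eq ?_)
    rw [Finset.sum_comm]
    refine Finset.sum_congr rfl fun α _ => ?_
    rw [← Finset.sum_mul, col_sum h1, one_mul]
  refine step1.trans ?_
  rw [hYd, fs_diag h1 h2 hA, fs_diag h1 h2 hB, ← Finset.sum_add_distrib]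
  refine Finset.sum_le_sum fun α _ => ?_
  obtain ⟨a0, a1⟩ := jensen_entry hA' m α
  obtain ⟨b0, b1⟩ := jensen_entry hB' m α
  have h3 := abs_pow_le a0 b0 m
  rw [← hd α] at h3
  rw [pow_add, sq_abs, ← mul_add, mul_comm]
  exact mul_le_mul_of_nonneg_left (by linarith) (sq_nonneg _)

theorem cols_le {A B : Matrix ι ι ℂ} (hA : Aᴴ = A) (hB : Bᴴ = B) (m : ℕ)
    (hAB : rt (A ^ (2 * (m + 2))) = rt (B ^ (2 * (m + 2)))) :
    ∑ l, (∑ p, ‖(A ^ 2 - B ^ 2) p l‖ ^ 2) ^ (((m + 2 : ℕ) : ℝ) / 2) ≤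
      2 ^ (m + 3) * (rt (A ^ (2 * (m + 2))) - rt ((A * B) ^ (m + 2))) := by
  have h1 := cols_le_fs hA hB m
  have h2 := key_fs hA hB m hAB
  have h3 := key_fs hB hA m hAB.symm
  have e1 : fs ((B ^ 2 - A ^ 2) * B ^ m) = fs ((A ^ 2 - B ^ 2) * B ^ m) := by
    have : (B ^ 2 - A ^ 2) * B ^ m = -((A ^ 2 - B ^ 2) * B ^ m) := by
      rw [← Matrix.neg_mul, neg_sub]
    rw [this]; unfold fs; simp
  have e2 : rt ((B * A) ^ (m + 2)) = rt ((A * B) ^ (m + 2)) := by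
    rw [← rt_conjT]
    simp only [Matrix.conjTranspose_pow, Matrix.conjTranspose_mul, hA, hB]
  rw [e1, e2, ← hAB] at h3
  have e3 : (2 : ℝ) ^ (m + 3) = 2 * 2 ^ (m + 2) := by ring
  rw [e3]
  linarith

end Pool.Agent.P.MP_ed7f76_gt
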