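import Pool.Agent.P.MP_ed7f76_gt.Paths
import Pool.Agent.P.MP_ed7f76_gt.Spec

/-! The truncated matrices. -/

namespace Pool.Agent.P.MP_ed7f76_gt

open Finset Matrix

/-- sign, with value `1` at `0` -/
noncomputable def sg (p : ℤ) : ℂ := if p < 0 then -1 else 1

/-- square root of the absolute value -/
noncomputable def rq (p : ℤ) : ℂ := ((Real.sqrt |(p : ℝ)| : ℝ) : ℂ)

lemma sg_mul_self (p : ℤ) : sg p * sg p = 1 := by unfold sg; split_ifs <;> simp

lemma star_sg (p : ℤ) : star (sg p) = sg p := by unfold sg; split_ifs <;> simp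

lemma star_rq (p : ℤ) : star (rq p) = rq p := by unfold rq; simp

lemma rq_mul_self (p : ℤ) : rq p * rq p = ((|p| : ℤ) : ℂ) := by
  unfold rq
  rw [← Complex.ofReal_mul, Real.mul_self_sqrt (abs_nonneg _)]
  norm_cast

lemma abs_mul_sg (p : ℤ) : ((|p| : ℤ) : ℂ) * sg p = (p : ℂ) := by
  unfold sg
  split_ifs with h
  · rw [abs_of_neg h]; simp
  · rw [abs_of_nonneg (not_lt.mp h)]; simp

lemma norm_rq_sq (p : ℤ) : ‖rq p‖ ^ 2 = |(p : ℝ)| := by
  unfold rq
  rw [Complex.norm_real, Real.norm_eq_abs, sq_abs, Real.sq_sqrt (abs_nonneg _)]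

/-- truncated matrix of `Λ^{1/2} a Λ^{1/2}` -/
noncomputable def AM (b : ℤ → ℂ) (s : Finset ℤ) : Matrix s s ℂ :=
  Matrix.of fun p q => rq p * b (q - p) * rq q

/-- truncated Hilbert transform -/
noncomputable def HM (s : Finset ℤ) : Matrix s s ℂ := Matrix.diagonal fun p => sg p

lemma HM_mul_self (s : Finset ℤ) : HM s * HM s = 1 := by
  unfold HM
  rw [Matrix.diagonal_mul_diagonal, ← Matrix.diagonal_one]
  congr 1; funext p; exact sg_mul_self _

lemma HM_herm (s : Finset ℤ) : (HM s)ᴴ = HM s := by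
  unfold HM
  rw [Matrix.diagonal_conjTranspose]
  congr 1; funext p; exact star_sg _

lemma AM_herm {b : ℤ → ℂ} (hb : ∀ n, b (-n) = star (b n)) (s : Finset ℤ) : (AM b s)ᴴ = AM b s := by
  ext p q
  simp only [AM, Matrix.conjTranspose_apply, Matrix.of_apply, star_mul', star_rq, ← hb, neg_sub]
  ring

lemma sum_pi_coe {N : ℕ} (s : Finset ℤ) (g : (Fin N → ℤ) → ℂ) :
    ∑ x : Fin N → s, g (fun i => (x i : ℤ)) = ∑ x ∈ Fintype.piFinset (fun _ : Fin N => s), g x := by
  refine Finset.sum_bij (fun x _ => fun i => (x i : ℤ)) ?_ ?_ ?_ ?_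
  · intro x _; exact Fintype.mem_piFinset.mpr fun i => (x i).2
  · intro x _ y _ h; funext i; exact Subtype.ext (congrFun h i)
  · intro y hy
    exact ⟨fun i => ⟨y i, Fintype.mem_piFinset.mp hy i⟩, mem_univ _, rfl⟩
  · intro _ _; rfl

lemma trunc_eq (n : ℕ) (b : ℤ → ℂ) (s : Finset ℤ) :
    ∑ x ∈ Fintype.piFinset (fun _ : Fin (n + 1) => s), gterm b x
      = Matrix.trace (AM b s ^ (n + 1)) - Matrix.trace ((AM b s * HM s) ^ (n + 1)) := by
  rw [← sum_pi_coe, trace_pow_paths, trace_pow_paths, ← Finset.sum_sub_distrib]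
  refine Finset.sum_congr rfl fun x _ => ?_
  simp only [HM, Matrix.mul_diagonal, AM, Matrix.of_apply, gterm, Finset.prod_mul_distrib]
  have e1 : ∏ i, rq (x (i + 1)) = ∏ i, rq (x i) :=
    Equiv.prod_comp (Equiv.addRight (1 : Fin (n + 1))) (fun i => rq (x i))
  have e2 : ∏ i, sg (x (i + 1)) = ∏ i, sg (x i) :=
    Equiv.prod_comp (Equiv.addRight (1 : Fin (n + 1))) (fun i => sg (x i))
  have e3 : (∏ i, rq (x i)) * ∏ i, rq (x i) = ((|∏ i, (x i : ℤ)| : ℤ) : ℂ) := by
    rw [← Finset.prod_mul_distrib, Finset.abs_prod]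
    simp only [rq_mul_self]
    push_cast; rfl
  have e4 : ((∏ i, rq (x i)) * ∏ i, rq (x i)) * ∏ i, sg (x i) = ((∏ i, (x i : ℤ) : ℤ) : ℂ) := by
    rw [← Finset.prod_mul_distrib, ← Finset.prod_mul_distrib]
    simp only [rq_mul_self, abs_mul_sg]
    push_cast; rfl
  rw [e1, e2, Int.cast_sub, ← e3, ← e4]
  ring

lemma trace_im {ι : Type*} [Fintype ι] {X : Matrix ι ι ℂ}
    (h : Matrix.trace Xᴴ = Matrix.trace X) : (Matrix.trace X).im = 0 := by
  rw [Matrix.trace_conjTranspose] at h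
  have := congrArg Complex.im h
  simp only [Complex.star_def, Complex.conj_im] at this
  linarith

/-- truncated kernel -/
noncomputable def GM (b : ℤ → ℂ) (s : Finset ℤ) (l q : ℤ) : ℂ :=
  ∑ m ∈ s, ((|m| : ℤ) : ℂ) * (b (m + l) * b (q - m))

lemma Y_entry (b : ℤ → ℂ) (s : Finset ℤ) (p q : s) :
    (AM b s ^ 2 - (HM s * AM b s * HM s) ^ 2) p q
      = (1 - sg p * sg q) * (rq p * rq q * GM b s (-p) q) := by
  have e : (AM b s ^ 2) p q = rq p * rq q * GM b s (-p) q := by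
    rw [pow_two, Matrix.mul_apply, GM, ← Finset.sum_coe_sort s, Finset.mul_sum]
    refine Finset.sum_congr rfl fun m _ => ?_
    simp only [AM, Matrix.of_apply, ← rq_mul_self, ← sub_eq_add_neg]
    ring
  rw [conj_pow (HM_mul_self s) (HM_mul_self s), Matrix.sub_apply]
  simp only [HM, Matrix.mul_diagonal, Matrix.diagonal_mul, e]
  ring

theorem trunc_bound {b : ℤ → ℂ} (hb : ∀ n, b (-n) = star (b n)) (m n : ℕ)
    (hn : n + 1 = 2 * (m + 2)) (L M : ℤ) (hL : L ≤ M) :
    (∑ x ∈ Fintype.piFinset (fun _ : Fin (n + 1) => Icc (-M) M), gterm b x).im = 0 ∧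
    ∑ q ∈ Icc 1 L, (∑ l ∈ Icc 1 L, (l : ℝ) * q * ‖GM b (Icc (-M) M) l q‖ ^ 2)
        ^ (((m + 2 : ℕ) : ℝ) / 2) ≤
      2 ^ (m + 3) * (∑ x ∈ Fintype.piFinset (fun _ : Fin (n + 1) => Icc (-M) M), gterm b x).re := by
  rw [trunc_eq, hn]
  set s := Icc (-M) M with hs
  set A := AM b s with hA
  set H := HM s with hH
  have hAh : Aᴴ = A := AM_herm hb s
  have hHh : Hᴴ = H := HM_herm s
  have hHH : H * H = 1 := HM_mul_self s
  have hBh : (H * A * H)ᴴ = H * A * H := by
    simp only [Matrix.conjTranspose_mul, hAh, hHh, Matrix.mul_assoc]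
  have e1 : (A * H) ^ (2 * (m + 2)) = (A * (H * A * H)) ^ (m + 2) := by
    rw [pow_mul, pow_two]; simp only [Matrix.mul_assoc]
  have e2 : rt (A ^ (2 * (m + 2))) = rt ((H * A * H) ^ (2 * (m + 2))) := by
    rw [conj_pow hHH hHH, rt_mul_comm, ← Matrix.mul_assoc, hHH, Matrix.one_mul]
  constructor
  · rw [Complex.sub_im, trace_im, trace_im, sub_zero]
    · rw [Matrix.conjTranspose_pow, Matrix.conjTranspose_mul, hAh, hHh]
      have e3 : H * A = H * (A * H) * H := by
        simp only [Matrix.mul_assoc, hHH, Matrix.mul_one]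
      rw [e3, conj_pow hHH hHH, Matrix.trace_mul_comm, ← Matrix.mul_assoc, hHH, Matrix.one_mul]
    · rw [Matrix.conjTranspose_pow, hAh]
  · have h1 := cols_le hAh hBh m e2
    rw [e1, Complex.sub_re]
    refine le_trans ?_ h1
    have hp : (0 : ℝ) ≤ ((m + 2 : ℕ) : ℝ) / 2 := by positivity
    generalize ((m + 2 : ℕ) : ℝ) / 2 = p at hp
    simp only [hA, hH, Y_entry]
    rw [Finset.sum_coe_sort s (fun q => (∑ p' : s,
      ‖(1 - sg p' * sg q) * (rq p' * rq q * GM b s (-p') q)‖ ^ 2) ^ p)]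
    refine le_trans (Finset.sum_le_sum fun q hq => ?_)
      (Finset.sum_le_sum_of_subset_of_nonneg (s := Icc 1 L) ?_
        fun _ _ _ => Real.rpow_nonneg (Finset.sum_nonneg fun _ _ => sq_nonneg _) _)
    · simp only [mem_Icc] at hq
      have hq0 : (0 : ℝ) ≤ q := by exact_mod_cast (by omega : (0 : ℤ) ≤ q)
      refine Real.rpow_le_rpow (Finset.sum_nonneg fun l hl => ?_) ?_ hp
      · simp only [mem_Icc] at hl
        have hl0 : (0 : ℝ) ≤ l := by exact_mod_cast (by omega : (0 : ℤ) ≤ l)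
        exact mul_nonneg (mul_nonneg hl0 hq0) (sq_nonneg _)
      · rw [Finset.sum_coe_sort s (fun p' =>
          ‖(1 - sg p' * sg q) * (rq p' * rq q * GM b s (-p') q)‖ ^ 2)]
        have h2 : ∑ l ∈ Icc 1 L, (l : ℝ) * q * ‖GM b s l q‖ ^ 2
            ≤ ∑ p' ∈ (Icc 1 L).image (fun l => -l),
              ‖(1 - sg p' * sg q) * (rq p' * rq q * GM b s (-p') q)‖ ^ 2 := by
          rw [Finset.sum_image (by intro x _ y _ h; simpa using h)]
          refine Finset.sum_le_sum fun l hl => ?_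
          simp only [mem_Icc] at hl
          have hl0 : (0 : ℝ) ≤ l := by exact_mod_cast (by omega : (0 : ℤ) ≤ l)
          have a1 : sg (-l) = -1 := by unfold sg; rw [if_pos (by omega)]
          have a2 : sg q = 1 := by unfold sg; rw [if_neg (by omega)]
          rw [a1, a2, neg_neg, norm_mul, norm_mul, norm_mul, mul_pow, mul_pow, mul_pow, norm_rq_sq,
            norm_rq_sq, Int.cast_neg, abs_neg, abs_of_nonneg hl0, abs_of_nonneg hq0]
          have a3 : ‖(1 : ℂ) - -1 * 1‖ ^ 2 = 4 := by norm_num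
          rw [a3]
          have a4 : 0 ≤ (l : ℝ) * q * ‖GM b s l q‖ ^ 2 :=
            mul_nonneg (mul_nonneg hl0 hq0) (sq_nonneg _)
          linarith
        refine h2.trans (Finset.sum_le_sum_of_subset_of_nonneg ?_ fun _ _ _ => sq_nonneg _)
        intro p' hp'
        obtain ⟨l, hl, rfl⟩ := Finset.mem_image.mp hp'
        simp only [hs, mem_Icc] at hl ⊢
        omega
    · intro q hq
      simp only [hs, mem_Icc] at hq ⊢
      omega

end Pool.Agent.P.MP_ed7f76_gt
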